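import Mathlib

/-!
# A quasi-norm which is invariant under relocation of large coefficients

`M` is a lattice norm on nonnegative families, `N` the supremum of `M` over all families which are
obtained by truncation at a level and relocation of the coefficients above that level.
-/

open scoped ENNReal NNReal

namespace Pool.Agent.R221.HG

variable {J : Type*} [DecidableEq J]

/-- The indicator of a finite set. -/
noncomputable def ind (A : Finset J) : J → ℝ≥0 := fun j => if j ∈ A then 1 else 0

/-- A lattice norm with a democracy constant. -/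
structure LatNorm (M : (J → ℝ≥0) → ℝ≥0∞) (D : ℝ≥0) : Prop where
  mono : ∀ u v : J → ℝ≥0, (∀ j, u j ≤ v j) → M u ≤ M v
  add : ∀ u v : J → ℝ≥0, M (u + v) ≤ M u + M v
  smul : ∀ (c : ℝ≥0) (u : J → ℝ≥0), M (c • u) = c * M u
  dem : ∀ A B : Finset J, A.card ≤ B.card → M (ind A) ≤ D * M (ind B)

/-- The finite set `A'` has at most as many elements as there are values `≥ τ`. -/
def Adm (u : J → ℝ≥0) (τ : ℝ≥0) (A' : Finset J) : Prop :=
  ∃ B : Finset J, (∀ j ∈ B, τ ≤ u j) ∧ A'.card ≤ B.card

/-- Values below `τ` are kept, those above are removed and `τ` is put on `A'`. -/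
noncomputable def ww (u : J → ℝ≥0) (τ : ℝ≥0) (A' : Finset J) : J → ℝ≥0 :=
  fun j => if j ∈ A' then τ else if u j < τ then u j else 0

/-- The new functional. -/
noncomputable def NN (M : (J → ℝ≥0) → ℝ≥0∞) (u : J → ℝ≥0) : ℝ≥0∞ :=
  ⨆ (τ : ℝ≥0) (A' : Finset J) (_ : 0 < τ ∧ Adm u τ A'), M (ww u τ A')

/-- All superlevel sets are finite. -/
def FinL (u : J → ℝ≥0) : Prop := ∀ τ : ℝ≥0, 0 < τ → {j | τ ≤ u j}.Finite

variable {M : (J → ℝ≥0) → ℝ≥0∞} {D : ℝ≥0}

omit [DecidableEq J] in
lemma FinL.add {u v : J → ℝ≥0} (hu : FinL u) (hv : FinL v) : FinL (u + v) := by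
  intro τ hτ
  have h2 : 0 < τ / 2 := by positivity
  refine ((hu _ h2).union (hv _ h2)).subset ?_
  intro j hj
  simp only [Set.mem_ofPred_eq, Set.mem_union, Pi.add_apply] at hj ⊢
  by_contra hcon
  push Not at hcon
  have h3 := add_lt_add hcon.1 hcon.2
  rw [add_halves] at h3
  exact absurd hj (not_le.2 h3)

lemma le_NN (u : J → ℝ≥0) (τ : ℝ≥0) (hτ : 0 < τ) (A' : Finset J) (h : Adm u τ A') :
    M (ww u τ A') ≤ NN M u :=
  le_iSup_of_le τ (le_iSup_of_le A' (le_iSup_of_le ⟨hτ, h⟩ le_rfl))

lemma NN_le {u : J → ℝ≥0} {K : ℝ≥0∞}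
    (h : ∀ (τ : ℝ≥0) (A' B : Finset J), 0 < τ → (∀ j ∈ B, τ ≤ u j) → A'.card ≤ B.card →
      M (ww u τ A') ≤ K) : NN M u ≤ K :=
  iSup_le fun τ => iSup_le fun A' => iSup_le fun hh => by
    obtain ⟨hτ, B, hB, hc⟩ := hh
    exact h τ A' B hτ hB hc

/-- Bound of an indicator by a family. -/
lemma LatNorm.ind_le (h : LatNorm M D) {u : J → ℝ≥0} {τ : ℝ≥0} {B : Finset J}
    (hB : ∀ j ∈ B, τ ≤ u j) : τ * M (ind B) ≤ M u := by
  rw [← h.smul]
  refine h.mono _ _ fun j => ?_
  simp only [Pi.smul_apply, ind, smul_eq_mul]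
  split_ifs with hj
  · rw [mul_one]; exact hB j hj
  · simp

lemma M_le_NN (h : LatNorm M D) {u : J → ℝ≥0} (hu : FinL u) : M u ≤ NN M u := by
  obtain ⟨τ, hτ, hlt⟩ : ∃ τ : ℝ≥0, 0 < τ ∧ ∀ j, u j < τ := by
    refine ⟨1 + ∑ j ∈ (hu 1 one_pos).toFinset, u j, by positivity, fun j => ?_⟩
    by_cases hj : 1 ≤ u j
    · have h1 : u j ≤ ∑ j ∈ (hu 1 one_pos).toFinset, u j :=
        Finset.single_le_sum (f := u) (fun _ _ => zero_le) (by simpa using hj)
      calc u j ≤ ∑ j ∈ (hu 1 one_pos).toFinset, u j := h1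
        _ < 1 + ∑ j ∈ (hu 1 one_pos).toFinset, u j := by
          rw [add_comm]; exact lt_add_of_pos_right _ one_pos
    · push Not at hj
      exact hj.trans_le (le_add_of_nonneg_right (zero_le))
  have := le_NN (M := M) u τ hτ ∅ ⟨∅, by simp, le_rfl⟩
  have h2 : ww u τ ∅ = u := by
    funext j
    simp [ww, hlt j]
  rwa [h2] at this

lemma NN_le_M (h : LatNorm M D) (u : J → ℝ≥0) : NN M u ≤ (1 + D) * M u := by
  refine NN_le fun τ A' B _ hB hc => ?_
  have h1 : M (ww u τ A') ≤ M (u + τ • ind A') := by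
    refine h.mono _ _ fun j => ?_
    simp only [ww, Pi.add_apply, Pi.smul_apply, ind, smul_eq_mul]
    split_ifs
    · rw [mul_one]; exact le_add_of_nonneg_left (zero_le)
    · simp
    · simp
  calc M (ww u τ A') ≤ M u + M (τ • ind A') := h1.trans (h.add _ _)
    _ = M u + τ * M (ind A') := by rw [h.smul]
    _ ≤ M u + τ * (D * M (ind B)) := by gcongr; exact h.dem _ _ hc
    _ = M u + D * (τ * M (ind B)) := by ring
    _ ≤ M u + D * M u := by gcongr; exact h.ind_le hB
    _ = (1 + D) * M u := by ring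

lemma NN_mono (h : LatNorm M D) {u v : J → ℝ≥0} (hu : FinL u) (hvu : ∀ j, v j ≤ u j) :
    NN M v ≤ NN M u := by
  classical
  refine NN_le fun τ A' B hτ hB hc => ?_
  set Q := (hu τ hτ).toFinset.filter (fun j => v j < τ) with hQ
  have hQm : ∀ j, j ∈ Q ↔ τ ≤ u j ∧ v j < τ := by
    intro j; simp [hQ]
  have hdisj : Disjoint B Q := by
    rw [Finset.disjoint_left]
    intro j hj hj'
    exact absurd (hB j hj) (not_le.2 ((hQm j).1 hj').2)
  refine le_trans ?_ (le_NN (M := M) u τ hτ (A' ∪ Q) ⟨B ∪ Q, ?_, ?_⟩)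
  · refine h.mono _ _ fun j => ?_
    simp only [ww, Finset.mem_union]
    by_cases h1 : j ∈ A'
    · simp [h1]
    · by_cases h2 : v j < τ
      · by_cases h3 : τ ≤ u j
        · have h4 : j ∈ Q := (hQm j).2 ⟨h3, h2⟩
          simp only [h1, h2, h4, if_true, if_false, or_true]
          exact h2.le
        · have h4 : j ∉ Q := fun hh => h3 ((hQm j).1 hh).1
          push Not at h3
          simp only [h1, h2, h4, h3, if_true, if_false, or_false]
          exact hvu j
      · simp [h1, h2]
  · intro j hj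
    rcases Finset.mem_union.1 hj with hj | hj
    · exact (hB j hj).trans (hvu j)
    · exact ((hQm j).1 hj).1
  · rw [Finset.card_union_of_disjoint hdisj]
    exact (Finset.card_union_le _ _).trans (by omega)

lemma NN_zero (h : LatNorm M D) : NN M (0 : J → ℝ≥0) = 0 := by
  have h0 : M 0 = 0 := by
    have := h.smul 0 0
    simpa using this
  have := NN_le_M h (0 : J → ℝ≥0)
  rw [h0, mul_zero] at this
  exact le_antisymm this (zero_le)

lemma NN_smul_le (h : LatNorm M D) {c : ℝ≥0} (hc : 0 < c) (u : J → ℝ≥0) :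
    NN M (c • u) ≤ c * NN M u := by
  refine NN_le fun τ A' B hτ hB hcard => ?_
  have hτ' : 0 < c⁻¹ * τ := by positivity
  have h1 : ww (c • u) τ A' = c • ww u (c⁻¹ * τ) A' := by
    funext j
    simp only [ww, Pi.smul_apply, smul_eq_mul]
    have hiff : c * u j < τ ↔ u j < c⁻¹ * τ := by
      rw [inv_mul_eq_div, lt_div_iff₀' hc]
    by_cases hj : j ∈ A'
    · simp only [hj, if_true]
      rw [mul_inv_cancel_left₀ hc.ne']
    · simp only [hj, if_false, hiff]
      split_ifs <;> simp
  rw [h1, h.smul]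
  gcongr
  refine le_NN (M := M) u _ hτ' A' ⟨B, fun j hj => ?_, hcard⟩
  have := hB j hj
  rw [Pi.smul_apply, smul_eq_mul] at this
  rw [inv_mul_eq_div, div_le_iff₀' hc]
  exact this

lemma NN_smul (h : LatNorm M D) (c : ℝ≥0) (u : J → ℝ≥0) :
    NN M (c • u) = c * NN M u := by
  rcases eq_or_ne c 0 with rfl | hc
  · simp [NN_zero h]
  · have hc' : 0 < c := pos_iff_ne_zero.2 hc
    refine le_antisymm (NN_smul_le h hc' u) ?_
    have h1 := NN_smul_le h (inv_pos.2 hc') (c • u)
    rw [smul_smul, inv_mul_cancel₀ hc, one_smul] at h1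
    calc (c : ℝ≥0∞) * NN M u ≤ c * ((c⁻¹ : ℝ≥0) * NN M (c • u)) := by gcongr
      _ = ((c * c⁻¹ : ℝ≥0) : ℝ≥0∞) * NN M (c • u) := by rw [ENNReal.coe_mul, mul_assoc]
      _ = NN M (c • u) := by rw [mul_inv_cancel₀ hc]; simp

/-- The quantitative triangle inequality. -/
lemma NN_add (h : LatNorm M D) {u v : J → ℝ≥0} (hu : FinL u) (hv : FinL v) {θ : ℝ≥0}
    (hθ : 0 < θ) (hθ2 : θ ≤ 1 / 2) :
    NN M (u + v) ≤ NN M u + 2 * D * θ * M u + (1 + D / θ) * M v := by
  classical
  refine NN_le fun τ A' R hτ hR hc => ?_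
  have hθ1 : θ < 1 := hθ2.trans_lt (by norm_num)
  set η : ℝ≥0 := θ * τ with hη
  set τ' : ℝ≥0 := (1 - θ) * τ with hτ'
  have hη0 : 0 < η := by positivity
  have h1θ : 0 < 1 - θ := tsub_pos_of_lt hθ1
  have hτ'0 : 0 < τ' := by positivity
  have hsum : τ' + η = τ := by
    rw [hτ', hη, ← add_mul, tsub_add_cancel_of_le hθ1.le, one_mul]
  set E := (hv η hη0).toFinset with hE
  have hEm : ∀ j, j ∈ E ↔ η ≤ v j := by intro j; simp [hE]
  set P := (hu τ' hτ'0).toFinset.filter (fun j => u j + v j < τ) with hP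
  have hPm : ∀ j, j ∈ P ↔ τ' ≤ u j ∧ u j + v j < τ := by intro j; simp [hP]
  set R1 := R.filter (fun j => τ' ≤ u j) with hR1
  have hR1m : ∀ j, j ∈ R1 ↔ j ∈ R ∧ τ' ≤ u j := by intro j; simp [hR1]
  have hsub : R \ R1 ⊆ E := by
    intro j hj
    rw [Finset.mem_sdiff, hR1m] at hj
    rw [hEm]
    have h1 := hR j hj.1
    by_contra hcon
    push Not at hcon
    have h2 : u j < τ' := by
      by_contra h3
      push Not at h3
      exact hj.2 ⟨hj.1, h3⟩
    have h3 := add_lt_add h2 hcon
    rw [hsum] at h3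
    exact absurd h1 (not_le.2 h3)
  have hR1sub : R1 ⊆ R := Finset.filter_subset _ _
  have hdisj : Disjoint P R1 := by
    rw [Finset.disjoint_left]
    intro j hj hj'
    have h1 := hR j ((hR1m j).1 hj').1
    exact absurd h1 (not_le.2 ((hPm j).1 hj).2)
  -- split `P ∪ A'`
  obtain ⟨A'', hA''sub, hA''card, hE'card⟩ : ∃ A'' ⊆ P ∪ A', A''.card ≤ (P ∪ R1).card ∧
      ((P ∪ A') \ A'').card ≤ E.card := by
    rcases le_total (P ∪ A').card (P ∪ R1).card with hle | hle
    · exact ⟨P ∪ A', Finset.Subset.refl _, hle, by simp⟩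
    · obtain ⟨A'', h1, h2⟩ := Finset.exists_subset_card_eq hle
      refine ⟨A'', h1, h2.le, ?_⟩
      rw [Finset.card_sdiff_of_subset h1, h2, Finset.card_union_of_disjoint hdisj]
      have h3 := Finset.card_union_le P A'
      have h4 := Finset.card_le_card hsub
      rw [Finset.card_sdiff_of_subset hR1sub] at h4
      have h5 := Finset.card_le_card hR1sub
      omega
  set E' := (P ∪ A') \ A'' with hE'
  have hpt : ∀ j, ww (u + v) τ A' j ≤
      (ww u τ' A'' + η • ind A'' + v + τ • ind E') j := by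
    intro j
    simp only [Pi.add_apply, Pi.smul_apply, smul_eq_mul]
    by_cases hj : j ∈ A''
    · have h1 : ww (u + v) τ A' j ≤ τ := by
        unfold ww
        split_ifs with h2 h3
        · exact le_rfl
        · exact h3.le
        · exact zero_le
      have h2 : ww u τ' A'' j = τ' := by simp [ww, hj]
      have h3 : ind A'' j = 1 := by simp [ind, hj]
      rw [h2, h3, mul_one, hsum]
      exact h1.trans (le_add_right (le_add_right le_rfl))
    · by_cases hj' : j ∈ E'
      · have h1 : ww (u + v) τ A' j ≤ τ := by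
          unfold ww
          split_ifs with h2 h3
          · exact le_rfl
          · exact h3.le
          · exact zero_le
        have h3 : ind E' j = 1 := by simp [ind, hj']
        rw [h3, mul_one]
        exact h1.trans (le_add_left le_rfl)
      · have hnot : j ∉ P ∪ A' := by
          intro h1
          exact hj' (Finset.mem_sdiff.2 ⟨h1, hj⟩)
        rw [Finset.mem_union, not_or] at hnot
        have h1 : ww (u + v) τ A' j ≤ ww u τ' A'' j + v j := by
          unfold ww
          simp only [hnot.2, hj, if_false, Pi.add_apply]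
          split_ifs with h2 h3 h3
          · exact le_rfl
          · exfalso
            push Not at h3
            exact hnot.1 ((hPm j).2 ⟨h3, h2⟩)
          · exact zero_le
          · exact zero_le
        refine h1.trans ?_
        refine le_add_right ?_
        gcongr
        exact le_add_right le_rfl
  have hM1 : M (ww (u + v) τ A') ≤
      M (ww u τ' A'') + η * M (ind A'') + M v + τ * M (ind E') := by
    refine (h.mono _ _ hpt).trans ?_
    refine (h.add _ _).trans ?_
    rw [h.smul τ]
    gcongr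
    refine (h.add _ _).trans ?_
    gcongr
    refine (h.add _ _).trans ?_
    rw [h.smul η]
  have hM2 : M (ww u τ' A'') ≤ NN M u := by
    refine le_NN (M := M) u τ' hτ'0 A'' ⟨P ∪ R1, fun j hj => ?_, hA''card⟩
    rcases Finset.mem_union.1 hj with hj | hj
    · exact ((hPm j).1 hj).1
    · exact ((hR1m j).1 hj).2
  have hM3 : (η : ℝ≥0∞) * M (ind A'') ≤ 2 * D * θ * M u := by
    have e1 : η ≤ 2 * θ * τ' := by
      rw [hη, hτ']
      have : (1 : ℝ≥0) ≤ 2 * (1 - θ) := by
        have h3 : (1 / 2 : ℝ≥0) ≤ 1 - θ := by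
          rw [le_tsub_iff_right hθ1.le]
          calc (1 / 2 : ℝ≥0) + θ ≤ 1 / 2 + 1 / 2 := by gcongr
            _ = 1 := by norm_num
        calc (1 : ℝ≥0) = 2 * (1 / 2) := by norm_num
          _ ≤ 2 * (1 - θ) := by gcongr
      calc θ * τ = θ * τ * 1 := by ring
        _ ≤ θ * τ * (2 * (1 - θ)) := by gcongr
        _ = 2 * θ * ((1 - θ) * τ) := by ring
    calc (η : ℝ≥0∞) * M (ind A'') ≤ ((2 * θ * τ' : ℝ≥0) : ℝ≥0∞) * (D * M (ind (P ∪ R1))) := by
          gcongr
          exact h.dem _ _ hA''card
      _ = 2 * D * θ * (τ' * M (ind (P ∪ R1))) := by push_cast; ring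
      _ ≤ 2 * D * θ * M u := by
          gcongr
          refine h.ind_le fun j hj => ?_
          rcases Finset.mem_union.1 hj with hj | hj
          · exact ((hPm j).1 hj).1
          · exact ((hR1m j).1 hj).2
  have hM4 : (τ : ℝ≥0∞) * M (ind E') ≤ (D / θ : ℝ≥0) * M v := by
    have e1 : τ = θ⁻¹ * η := by
      rw [hη, inv_mul_cancel_left₀ hθ.ne']
    calc (τ : ℝ≥0∞) * M (ind E') ≤ τ * (D * M (ind E)) := by
          gcongr
          exact h.dem _ _ hE'card
      _ = (D / θ : ℝ≥0) * (η * M (ind E)) := by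
          rw [div_eq_mul_inv]
          conv_lhs => rw [e1]
          push_cast
          ring
      _ ≤ (D / θ : ℝ≥0) * M v := by
          gcongr
          exact h.ind_le fun j hj => (hEm j).1 hj
  calc M (ww (u + v) τ A') ≤ M (ww u τ' A'') + η * M (ind A'') + M v + τ * M (ind E') := hM1
    _ ≤ NN M u + 2 * D * θ * M u + M v + (D / θ : ℝ≥0) * M v := by gcongr
    _ = NN M u + 2 * D * θ * M u + (1 + D / θ) * M v := by
        rw [ENNReal.coe_div hθ.ne']
        ring

/-- Removing a greedy set is better than any other approximation with the same number of terms. -/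
lemma NN_greedy (h : LatNorm M D) {a v : J → ℝ≥0} (ha : FinL a) {A B : Finset J}
    (hAB : B.card ≤ A.card) (hA : ∀ j ∈ A, ∀ i ∉ A, a i ≤ a j) (hv : ∀ j ∉ B, v j = a j)
    (hvf : FinL v) :
    NN M (fun j => if j ∈ A then 0 else a j) ≤ NN M v := by
  classical
  set u : J → ℝ≥0 := fun j => if j ∈ A then 0 else a j with hu
  have case1 : ∀ (τ : ℝ≥0) (A' B0 : Finset J), 0 < τ → (∀ j ∈ B0, τ ≤ u j) →
      A'.card ≤ B0.card → (∀ j ∈ A, τ ≤ a j) → M (ww u τ A') ≤ NN M v := by
    intro τ A' B0 hτ hB0 hc hAτ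
    have hB0A : Disjoint B0 A := by
      rw [Finset.disjoint_left]
      intro j hj hj'
      have := hB0 j hj
      simp only [hu, hj', if_true] at this
      exact absurd this (not_le.2 hτ)
    have hB0a : ∀ j ∈ B0, τ ≤ a j := by
      intro j hj
      have := hB0 j hj
      have hj' : j ∉ A := Finset.disjoint_left.1 hB0A hj
      simpa only [hu, hj', if_false] using this
    set S := B.filter (fun j => a j < τ) with hS
    have hSm : ∀ j, j ∈ S ↔ j ∈ B ∧ a j < τ := by intro j; simp [hS]
    refine le_trans ?_ (le_NN (M := M) v τ hτ (A' ∪ S) ⟨(B0 ∪ A) \ B, ?_, ?_⟩)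
    · refine h.mono _ _ fun j => ?_
      unfold ww
      by_cases h1 : j ∈ A'
      · simp [h1]
      · by_cases h2 : j ∈ S
        · simp only [h1, h2, Finset.mem_union, or_true, if_true, if_false]
          split_ifs with h3
          · exact h3.le
          · exact zero_le
        · simp only [h1, h2, Finset.mem_union, or_false, if_false]
          by_cases h3 : j ∈ A
          · simp [hu, h3]
          · have h4 : u j = a j := by simp [hu, h3]
            rw [h4]
            by_cases h5 : a j < τ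
            · have h6 : j ∉ B := fun hh => h2 ((hSm j).2 ⟨hh, h5⟩)
              rw [hv j h6]
            · simp [h5]
    · intro j hj
      rw [Finset.mem_sdiff, Finset.mem_union] at hj
      rw [hv j hj.2]
      rcases hj.1 with hj' | hj'
      · exact hB0a j hj'
      · exact hAτ j hj'
    · have e1 : ((B0 ∪ A) ∩ B).card + S.card ≤ B.card := by
        rw [← Finset.card_union_of_disjoint]
        · refine Finset.card_le_card ?_
          intro j hj
          rcases Finset.mem_union.1 hj with hj | hj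
          · exact (Finset.mem_inter.1 hj).2
          · exact ((hSm j).1 hj).1
        · rw [Finset.disjoint_left]
          intro j hj hj'
          rw [Finset.mem_inter, Finset.mem_union] at hj
          have h2 := ((hSm j).1 hj').2
          rcases hj.1 with h3 | h3
          · exact absurd (hB0a j h3) (not_le.2 h2)
          · exact absurd (hAτ j h3) (not_le.2 h2)
      have e2 : ((B0 ∪ A) \ B).card + ((B0 ∪ A) ∩ B).card = B0.card + A.card := by
        rw [Finset.card_sdiff_add_card_inter, Finset.card_union_of_disjoint hB0A]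
      have e3 := Finset.card_union_le A' S
      omega
  refine NN_le fun τ A' B0 hτ hB0 hc => ?_
  by_cases hAτ : ∀ j ∈ A, τ ≤ a j
  · exact case1 τ A' B0 hτ hB0 hc hAτ
  · push Not at hAτ
    obtain ⟨j0, hj0, hlt⟩ := hAτ
    obtain ⟨j1, hj1, hmin⟩ := Finset.exists_min_image A a ⟨j0, hj0⟩
    have hu1 : ∀ i, u i ≤ a j1 := by
      intro i
      by_cases hi : i ∈ A
      · simp [hu, hi]
      · simp only [hu, hi, if_false]
        exact hA j1 hj1 i hi
    have hlt1 : a j1 < τ := (hmin j0 hj0).trans_lt hlt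
    have hB0e : B0 = ∅ := by
      rw [Finset.eq_empty_iff_forall_notMem]
      intro j hj
      exact absurd ((hB0 j hj).trans (hu1 j)) (not_le.2 hlt1)
    have hA'e : A' = ∅ := by
      rw [hB0e, Finset.card_empty] at hc
      exact Finset.card_eq_zero.1 (Nat.le_zero.1 hc)
    have hww : ww u τ A' = u := by
      funext j
      simp [ww, hA'e, (hu1 j).trans_lt hlt1]
    rw [hww]
    rcases eq_or_ne (a j1) 0 with h0 | h0
    · have hu0 : u = 0 := by
        funext j
        have := hu1 j
        rw [h0] at this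
        exact le_antisymm this (zero_le)
      rw [hu0]
      have h0' : M 0 = 0 := by
        have := h.smul 0 0
        simpa using this
      rw [h0']
      exact zero_le
    · have ht : 0 < a j1 := pos_iff_ne_zero.2 h0
      have hufin : FinL u := by
        intro σ hσ
        refine (ha σ hσ).subset ?_
        intro j hj
        simp only [Set.mem_ofPred_eq] at hj ⊢
        refine hj.trans ?_
        simp only [hu]
        split_ifs
        · exact zero_le
        · exact le_rfl
      set L := (hufin (a j1) ht).toFinset with hL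
      have hLm : ∀ j, j ∈ L ↔ a j1 ≤ u j := by intro j; simp [hL]
      have hwL : ww u (a j1) L = u := by
        funext j
        unfold ww
        by_cases hj : j ∈ L
        · rw [if_pos hj]
          exact le_antisymm ((hLm j).1 hj) (hu1 j)
        · rw [if_neg hj]
          have : u j < a j1 := by
            by_contra hh
            push Not at hh
            exact hj ((hLm j).2 hh)
          rw [if_pos this]
      have := case1 (a j1) L L ht (fun j hj => (hLm j).1 hj) le_rfl hmin
      rwa [hwL] at this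

end Pool.Agent.R221.HG
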