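import Pool.Agent.R221.HG.Haar

/-!
# Democracy of the Haar system and the coefficient functionals
-/

open MeasureTheory Finset Pool.Agent.H66R3.PG
open scoped ENNReal NNReal

namespace Pool.Agent.R221.HG

/-! ### Sums of geometric type -/

lemma geo_sum {r p : ℝ} (hr : 1 < r) (hp : 0 < p) (S : Finset ℕ) :
    (∑ n ∈ S, r ^ n) ^ p ≤ (r / (r - 1)) ^ p * ∑ n ∈ S, (r ^ n) ^ p := by
  have hr0 : 0 < r := by linarith
  have hr1 : 0 < r - 1 := by linarith
  rcases S.eq_empty_or_nonempty with rfl | hS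
  · simp [Real.zero_rpow hp.ne']
  · set m := S.max' hS with hm
    have h1 : ∑ n ∈ S, r ^ n ≤ r / (r - 1) * r ^ m := by
      have h2 : ∑ n ∈ S, r ^ n ≤ ∑ n ∈ range (m + 1), r ^ n := by
        refine sum_le_sum_of_subset_of_nonneg ?_ fun _ _ _ => by positivity
        intro n hn
        rw [mem_range]
        exact Nat.lt_succ_of_le (S.le_max' n hn)
      refine h2.trans ?_
      rw [geom_sum_eq hr.ne']
      rw [div_mul_eq_mul_div]
      refine div_le_div_of_nonneg_right ?_ hr1.le
      rw [pow_succ]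
      linarith
    calc (∑ n ∈ S, r ^ n) ^ p ≤ (r / (r - 1) * r ^ m) ^ p :=
          Real.rpow_le_rpow (sum_nonneg fun _ _ => by positivity) h1 hp.le
      _ = (r / (r - 1)) ^ p * (r ^ m) ^ p := Real.mul_rpow (by positivity) (by positivity)
      _ ≤ (r / (r - 1)) ^ p * ∑ n ∈ S, (r ^ n) ^ p := by
          refine mul_le_mul_of_nonneg_left ?_ (by positivity)
          exact single_le_sum (f := fun n => (r ^ n) ^ p) (fun _ _ => by positivity)
            (S.max'_mem hS)

lemma wt_pow (p : ℝ) (n : ℕ) : wt p n = ((2 : ℝ) ^ (1 / p)) ^ n := by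
  unfold wt
  rw [← Real.rpow_natCast, ← Real.rpow_natCast, ← Real.rpow_mul (by norm_num),
    ← Real.rpow_mul (by norm_num), mul_comm]

/-- The sum of the absolute values of the Haar functions of a finite set. -/
noncomputable def HA (p : ℝ) (A : Finset Idx) (x : ℕ → Bool) : ℝ := ∑ j ∈ A, |hd p j x|

lemma HA_nonneg (p : ℝ) (A : Finset Idx) (x : ℕ → Bool) : 0 ≤ HA p A x :=
  sum_nonneg fun _ _ => abs_nonneg _

/-- Common level. -/
lemma exists_level (A : Finset Idx) : ∃ n, ∀ j ∈ A, hl j ≤ n :=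
  ⟨A.sup hl, fun j hj => le_sup (f := hl) hj⟩

lemma dep_HA (p : ℝ) (A : Finset Idx) {n : ℕ} (hn : ∀ j ∈ A, hl j ≤ n) : Dep n (HA p A) := by
  apply Dep.sum
  intro j hj
  exact ((dep_hd p j).mono (hn j hj)).map (fun u => |u|)

lemma abs_haar (p : ℝ) (l : List Bool) (x : ℕ → Bool) :
    |haar p l x| = wt p l.length * cellI l x := by
  unfold haar
  rw [abs_mul, rd_abs, mul_one, abs_mul, abs_of_pos (wt_pos p _)]
  congr 1
  unfold cellI
  split_ifs <;> simp

/-- Pointwise bound for the words. -/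
lemma words_pow {p : ℝ} (hp : 0 < p) : ∃ C : ℝ, 0 < C ∧ ∀ (A : Finset (List Bool))
    (x : ℕ → Bool), (∑ l ∈ A, |haar p l x|) ^ p ≤ C * ∑ l ∈ A, |haar p l x| ^ p := by
  set r : ℝ := (2 : ℝ) ^ (1 / p) with hr
  have hr1 : 1 < r := Real.one_lt_rpow (by norm_num) (by positivity)
  have hr0 : 0 < r - 1 := by linarith
  refine ⟨(r / (r - 1)) ^ p, by positivity, fun A x => ?_⟩
  classical
  set A1 := A.filter (fun l => pre l.length x = l) with hA1
  have h0 : ∀ l ∈ A, l ∉ A1 → |haar p l x| = 0 := by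
    intro l hl hl1
    rw [abs_haar]
    unfold cellI
    rw [if_neg, mul_zero]
    intro h
    exact hl1 (mem_filter.2 ⟨hl, h⟩)
  have h1 : ∀ l ∈ A1, |haar p l x| = r ^ l.length := by
    intro l hl
    rw [abs_haar, wt_pow]
    unfold cellI
    rw [if_pos (mem_filter.1 hl).2, mul_one]
  have hinj : Set.InjOn List.length (A1 : Set (List Bool)) := by
    intro l hl l' hl' h
    have e1 := (mem_filter.1 (mem_coe.1 hl)).2
    have e2 := (mem_filter.1 (mem_coe.1 hl')).2
    rw [← e1, ← e2, h]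
  have e1 : ∑ l ∈ A, |haar p l x| = ∑ n ∈ A1.image List.length, r ^ n := by
    rw [sum_image hinj, ← sum_subset (filter_subset _ _) h0]
    exact sum_congr rfl h1
  have e2 : ∑ l ∈ A, |haar p l x| ^ p = ∑ n ∈ A1.image List.length, (r ^ n) ^ p := by
    rw [sum_image hinj, ← sum_subset (filter_subset (fun l => pre l.length x = l) A)]
    · exact sum_congr rfl fun l hl => by rw [h1 l hl]
    · intro l hl hl1
      rw [h0 l hl hl1, Real.zero_rpow hp.ne']
  rw [e1, e2]
  exact geo_sum hr1 hp _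

/-- Democracy: the norm of the sum of the absolute values. -/
theorem HA_norm {p : ℝ} (hp : 1 < p) : ∃ C : ℝ, 0 < C ∧ ∀ A : Finset Idx,
    nm p (HA p A) ≤ C * (A.card : ℝ) ^ (1 / p) := by
  have hp0 : 0 < p := by linarith
  obtain ⟨C, hC, h⟩ := words_pow hp0
  have hC1 : (1 : ℝ) ≤ max C 1 := le_max_right _ _
  refine ⟨(2 * max C 1 ^ (1 / p)), by positivity, fun A => ?_⟩
  classical
  obtain ⟨n, hn⟩ := exists_level A
  -- words
  set W : Finset (List Bool) := (A.eraseNone).image dec with hW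
  have hsumW : ∀ (F : ℝ → ℝ) (x : ℕ → Bool), ∑ l ∈ W, F |haar p l x| =
      ∑ j ∈ A.eraseNone, F |hd p (some j) x| := by
    intro F x
    rw [hW, sum_image fun a _ b _ hab => dec_injective hab]
    rfl
  have hsplit : ∀ (F : ℝ → ℝ), 0 ≤ F 1 → ∀ x : ℕ → Bool, ∑ j ∈ A, F |hd p j x| =
      (if none ∈ A then F 1 else 0) + ∑ l ∈ W, F |haar p l x| := by
    intro F _ x
    rw [hsumW]
    have e1 : ∑ j ∈ A, F |hd p j x| = ∑ j ∈ A, (if j = none then F 1 else F |hd p j x|) := by
      refine sum_congr rfl fun j _ => ?_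
      split_ifs with hj
      · subst hj; simp [hd]
      · rfl
    rw [e1]
    by_cases hA : none ∈ A
    · rw [if_pos hA, ← Finset.insert_erase hA, sum_insert (notMem_erase _ _), if_pos rfl]
      congr 1
      rw [Finset.insert_erase hA]
      refine (sum_bij (fun j _ => some j) ?_ ?_ ?_ ?_).symm
      · intro j hj
        rw [Finset.mem_eraseNone] at hj
        exact mem_erase.2 ⟨by simp, hj⟩
      · intro a _ b _ hab; exact Option.some.inj hab
      · intro b hb
        rw [mem_erase] at hb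
        obtain ⟨j, rfl⟩ := Option.ne_none_iff_exists'.1 hb.1
        exact ⟨j, Finset.mem_eraseNone.2 hb.2, rfl⟩
      · intro j _
        simp
    · rw [if_neg hA, zero_add]
      refine (sum_bij (fun j _ => some j) ?_ ?_ ?_ ?_).symm
      · intro j hj
        rwa [Finset.mem_eraseNone] at hj
      · intro a _ b _ hab; exact Option.some.inj hab
      · intro b hb
        have : b ≠ none := fun e => hA (e ▸ hb)
        obtain ⟨j, rfl⟩ := Option.ne_none_iff_exists'.1 this
        exact ⟨j, Finset.mem_eraseNone.2 hb, rfl⟩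
      · intro j _
        simp
  have hpt : ∀ x, |HA p A x| ^ p ≤ (2 : ℝ) ^ p * max C 1 * ∑ j ∈ A, |hd p j x| ^ p := by
    intro x
    rw [abs_of_nonneg (HA_nonneg p A x)]
    unfold HA
    have e1 := hsplit (fun t => t) zero_le_one x
    have e2 := hsplit (fun t => t ^ p) (by simp) x
    simp only [Real.one_rpow] at e1 e2
    rw [e1, e2]
    set a : ℝ := if none ∈ A then 1 else 0 with ha
    set b : ℝ := ∑ l ∈ W, |haar p l x| with hb
    have ha0 : 0 ≤ a := by rw [ha]; split_ifs <;> norm_num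
    have hb0 : 0 ≤ b := sum_nonneg fun _ _ => abs_nonneg _
    have hap : a ^ p = a := by
      rw [ha]; split_ifs
      · simp
      · rw [Real.zero_rpow hp0.ne']
    have hbp := h W x
    have hS0 : 0 ≤ ∑ l ∈ W, |haar p l x| ^ p := sum_nonneg fun _ _ => by positivity
    have h1 : (a + b) ^ p ≤ (2 : ℝ) ^ p * (a ^ p + b ^ p) := by
      have h2 : a + b ≤ 2 * max a b := by
        have := le_max_left a b
        have := le_max_right a b
        linarith
      calc (a + b) ^ p ≤ (2 * max a b) ^ p := Real.rpow_le_rpow (by positivity) h2 hp0.le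
        _ = 2 ^ p * (max a b) ^ p := Real.mul_rpow (by norm_num) (le_max_of_le_left ha0)
        _ ≤ (2 : ℝ) ^ p * (a ^ p + b ^ p) := by
            refine mul_le_mul_of_nonneg_left ?_ (by positivity)
            rcases le_total a b with hab | hab
            · rw [max_eq_right hab]
              have : 0 ≤ a ^ p := by positivity
              linarith
            · rw [max_eq_left hab]
              have : 0 ≤ b ^ p := by positivity
              linarith
    refine h1.trans ?_
    rw [mul_assoc]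
    refine mul_le_mul_of_nonneg_left ?_ (by positivity)
    rw [hap, mul_add]
    refine add_le_add ?_ (hbp.trans ?_)
    · exact le_mul_of_one_le_left ha0 hC1
    · exact mul_le_mul_of_nonneg_right (le_max_left _ _) hS0
  have hD1 : Dep n (fun x => |HA p A x| ^ p) := (dep_HA p A hn).map (fun u => |u| ^ p)
  have hDj : ∀ j ∈ A, Dep n (fun x => |hd p j x| ^ p) := fun j hj =>
    ((dep_hd p j).mono (hn j hj)).map (fun u => |u| ^ p)
  have hE : E (fun x => |HA p A x| ^ p) ≤ (2 : ℝ) ^ p * max C 1 * A.card := by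
    refine (E_mono hD1 ((dep_const n ((2 : ℝ) ^ p * max C 1)).mul (Dep.sum A hDj)) hpt).trans ?_
    rw [E_mul_left, E_sum A hDj]
    refine mul_le_mul_of_nonneg_left ?_ (by positivity)
    have : ∀ j ∈ A, E (fun x => |hd p j x| ^ p) = 1 := by
      intro j _
      rcases j with _ | j
      · simp only [hd, abs_one, Real.one_rpow]
        exact E_const 1
      · exact haar_norm hp0 (dec j)
    rw [sum_congr rfl this]
    simp
  unfold nm
  calc (E fun x => |HA p A x| ^ p) ^ (1 / p) ≤ ((2 : ℝ) ^ p * max C 1 * A.card) ^ (1 / p) :=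
        Real.rpow_le_rpow (E_rpow_nonneg p _) hE (by positivity)
    _ = 2 * max C 1 ^ (1 / p) * (A.card : ℝ) ^ (1 / p) := by
        rw [Real.mul_rpow (by positivity) (by positivity),
          Real.mul_rpow (by positivity) (by positivity), ← Real.rpow_mul (by norm_num),
          mul_one_div, div_self hp0.ne', Real.rpow_one]

/-! ### Coefficients -/

section
variable {𝕜 : Type} [RCLike 𝕜]

lemma toReal_ofReal' {p : ℝ} (hp : 1 < p) : (ENNReal.ofReal p).toReal = p :=
  ENNReal.toReal_ofReal (by linarith)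

/-- The Hoelder inequality with a cylinder function. -/
lemma holder_cyl {p : ℝ} (hp : 1 < p) {n : ℕ} {F : (ℕ → Bool) → ℝ} (hF : Dep n F)
    (f : Lp 𝕜 (ENNReal.ofReal p) mu) :
    Integrable (fun x => |F (dig x)| * ‖f x‖) mu ∧
      ∫ x, |F (dig x)| * ‖f x‖ ∂mu ≤ nm (p / (p - 1)) F * ‖f‖ := by
  have hq := conj_exp hp
  have hm1 := hF.memLp (ENNReal.ofReal (p / (p - 1)))
  have hm2 := Lp.memLp f
  have hp0 : 0 < p := by linarith
  have hq0 : 0 < p / (p - 1) := hq.symm.pos
  constructor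
  · have h1 : MemLp (fun x => ‖F (dig x)‖) (ENNReal.ofReal (p / (p - 1))) mu := hm1.norm
    have h2 : MemLp (fun x => ‖f x‖) (ENNReal.ofReal p) mu := hm2.norm
    haveI : ENNReal.HolderTriple (ENNReal.ofReal (p / (p - 1))) (ENNReal.ofReal p) 1 :=
      hq.symm.ennrealOfReal
    exact MemLp.integrable_mul h1 h2
  · have h1 := integral_mul_norm_le_Lp_mul_Lq (μ := mu) hq.symm hm1 hm2.norm
    have h2 : (∫ x, ‖f x‖ ^ p ∂mu) ^ (1 / p) = ‖f‖ := by
      rw [Lp.norm_def, MemLp.eLpNorm_eq_integral_rpow_norm (by simpa using hp0)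
        ENNReal.ofReal_ne_top hm2, ENNReal.toReal_ofReal (by positivity),
        ENNReal.toReal_ofReal hp0.le, one_div]
    simp only [norm_norm] at h1
    rw [h2] at h1
    exact h1

lemma coef_eq (p : ℝ) (j : Idx) (f : Lp 𝕜 (ENNReal.ofReal p) mu) :
    coef p j f = ∫ x, ((hd (p / (p - 1)) j (dig x) : ℝ) : 𝕜) * f x ∂mu := by
  unfold coef
  refine integral_congr_ae ?_
  filter_upwards [haarFun_ae (p / (p - 1)) j] with x hx
  rw [hx]

lemma integrable_coef {p : ℝ} (hp : 1 < p) (j : Idx) (f : Lp 𝕜 (ENNReal.ofReal p) mu) :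
    Integrable (fun x => ((hd (p / (p - 1)) j (dig x) : ℝ) : 𝕜) * f x) mu := by
  have h1 := (holder_cyl hp (dep_hd (p / (p - 1)) j) f).1
  refine (h1.mono' ?_ ?_)
  · exact (RCLike.measurable_ofReal.comp
      (dep_hd (p / (p - 1)) j).measurable).aestronglyMeasurable.mul (Lp.memLp f).1
  · filter_upwards with x
    rw [norm_mul, RCLike.norm_ofReal]

/-- The sum of the coefficients over a finite set. -/
lemma sum_coef_le {p : ℝ} (hp : 1 < p) (A : Finset Idx) (f : Lp 𝕜 (ENNReal.ofReal p) mu) :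
    ∑ j ∈ A, ‖coef p j f‖ ≤ nm (p / (p - 1)) (HA (p / (p - 1)) A) * ‖f‖ := by
  obtain ⟨n, hn⟩ := exists_level A
  have h1 := (holder_cyl hp (dep_HA (p / (p - 1)) A hn) f).2
  refine le_trans ?_ h1
  have h2 : ∀ j ∈ A, Integrable (fun x => |hd (p / (p - 1)) j (dig x)| * ‖f x‖) mu :=
    fun j _ => (holder_cyl hp (dep_hd (p / (p - 1)) j) f).1
  calc ∑ j ∈ A, ‖coef p j f‖ ≤ ∑ j ∈ A, ∫ x, |hd (p / (p - 1)) j (dig x)| * ‖f x‖ ∂mu := by
        refine sum_le_sum fun j _ => ?_
        rw [coef_eq]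
        refine (norm_integral_le_integral_norm _).trans (le_of_eq ?_)
        refine integral_congr_ae (Filter.Eventually.of_forall fun x => ?_)
        simp only
        rw [norm_mul, RCLike.norm_ofReal]
    _ = ∫ x, ∑ j ∈ A, |hd (p / (p - 1)) j (dig x)| * ‖f x‖ ∂mu := (integral_finsetSum A h2).symm
    _ = ∫ x, |HA (p / (p - 1)) A (dig x)| * ‖f x‖ ∂mu := by
        refine integral_congr_ae (Filter.Eventually.of_forall fun x => ?_)
        simp only
        rw [abs_of_nonneg (HA_nonneg _ _ _)]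
        unfold HA
        rw [sum_mul]

lemma coef_add {p : ℝ} (hp : 1 < p) (j : Idx) (f g : Lp 𝕜 (ENNReal.ofReal p) mu) :
    coef p j (f + g) = coef p j f + coef p j g := by
  rw [coef_eq, coef_eq, coef_eq, ← integral_add (integrable_coef hp j f) (integrable_coef hp j g)]
  refine integral_congr_ae ?_
  filter_upwards [Lp.coeFn_add f g] with x hx
  rw [hx, Pi.add_apply, mul_add]

lemma coef_smul {p : ℝ} (j : Idx) (c : 𝕜) (f : Lp 𝕜 (ENNReal.ofReal p) mu) :
    coef p j (c • f) = c * coef p j f := by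
  rw [coef_eq, coef_eq, ← integral_const_mul]
  refine integral_congr_ae ?_
  filter_upwards [Lp.coeFn_smul c f] with x hx
  rw [hx, Pi.smul_apply, smul_eq_mul]
  ring

lemma coef_sub {p : ℝ} (hp : 1 < p) (j : Idx) (f g : Lp 𝕜 (ENNReal.ofReal p) mu) :
    coef p j (f - g) = coef p j f - coef p j g := by
  have h : f - g = f + (-1 : 𝕜) • g := by rw [neg_one_smul, sub_eq_add_neg]
  rw [h, coef_add hp, coef_smul]
  ring

lemma coef_zero {p : ℝ} (j : Idx) : coef p j (0 : Lp 𝕜 (ENNReal.ofReal p) mu) = 0 := by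
  have := coef_smul j (0 : 𝕜) (0 : Lp 𝕜 (ENNReal.ofReal p) mu)
  rwa [zero_smul, zero_mul] at this

lemma coef_sum {p : ℝ} (hp : 1 < p) (j : Idx) {ι : Type} (s : Finset ι)
    (f : ι → Lp 𝕜 (ENNReal.ofReal p) mu) :
    coef p j (∑ i ∈ s, f i) = ∑ i ∈ s, coef p j (f i) := by
  classical
  induction s using Finset.induction_on with
  | empty => simp [coef_zero]
  | insert a s ha ih => rw [sum_insert ha, sum_insert ha, coef_add hp, ih]

lemma coef_hv {p : ℝ} (hp : 1 < p) (i j : Idx) :
    coef p i (hv 𝕜 p j) = if i = j then 1 else 0 := by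
  have h1 : coef p i (hv 𝕜 p j) =
      ∫ x, ((hd (p / (p - 1)) i (dig x) * hd p j (dig x) : ℝ) : 𝕜) ∂mu := by
    rw [coef_eq]
    refine integral_congr_ae ?_
    unfold hv
    filter_upwards [(memLp_haarFun 𝕜 p j).coeFn_toLp, haarFun_ae p j] with x h1 h2
    rw [h1, h2]
    push_cast
    rfl
  have h2 := E_hd_hd hp i j
  unfold E at h2
  rw [h1, integral_ofReal, h2]
  split_ifs <;> simp

lemma coef_comb {p : ℝ} (hp : 1 < p) (A : Finset Idx) (b : Idx → 𝕜) (i : Idx) :
    coef p i (∑ j ∈ A, b j • hv 𝕜 p j) = if i ∈ A then b i else 0 := by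
  rw [coef_sum hp]
  simp only [coef_smul, coef_hv hp, mul_ite, mul_one, mul_zero]
  rw [sum_ite_eq A i b]

end

end Pool.Agent.R221.HG
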