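import Pool.Agent.R221.HG.Main

/-!
# The functional on `L_p`
-/

open MeasureTheory Finset Pool.Agent.H66R3.PG
open scoped ENNReal NNReal

namespace Pool.Agent.R221.HG

/-! ### A real inequality -/

lemma snorm_real {a b c L : ℝ} (ha : 0 ≤ a) (hb : 0 ≤ b) (hba : b ≤ a) (hc : 0 ≤ c)
    (hL : 0 ≤ L) (h : c ≤ a + L * Real.sqrt (a * b)) :
    c ^ (1 / (L + 2)) ≤ a ^ (1 / (L + 2)) + b ^ (1 / (L + 2)) := by
  set s : ℝ := 1 / (L + 2) with hs
  have hs0 : 0 < s := by positivity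
  have hs2 : s ≤ 1 / 2 := by
    rw [hs, one_div_le_one_div (by positivity) (by norm_num)]; linarith
  rcases ha.eq_or_lt with h0 | h0
  · have hb0 : b = 0 := le_antisymm (hba.trans h0.symm.le) hb
    have hc0 : c = 0 := by
      refine le_antisymm ?_ hc
      rw [← h0, hb0] at h
      simpa using h
    rw [hc0, hb0, ← h0, Real.zero_rpow hs0.ne']
    norm_num
  · set r := b / a with hr
    have hr0 : 0 ≤ r := by positivity
    have hr1 : r ≤ 1 := div_le_one_of_le₀ hba ha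
    have hbr : b = a * r := by rw [hr]; field_simp
    have e1 : Real.sqrt (a * b) = a * Real.sqrt r := by
      rw [hbr, show a * (a * r) = a ^ 2 * r by ring, Real.sqrt_mul (by positivity),
        Real.sqrt_sq ha]
    have h1 : c ≤ a * (1 + L * Real.sqrt r) := by rw [e1] at h; linarith
    have h2 : (1 + L * Real.sqrt r) ^ s ≤ 1 + r ^ s := by
      have h3 : (1 + L * Real.sqrt r) ^ s ≤ 1 + s * (L * Real.sqrt r) :=
        rpow_one_add_le_one_add_mul_self (by
          have : 0 ≤ L * Real.sqrt r := by positivity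
          linarith) hs0.le (by linarith)
      have h4 : s * L ≤ 1 := by
        rw [hs, one_div, inv_mul_le_iff₀ (by positivity)]
        linarith
      have h5 : Real.sqrt r ≤ r ^ s := by
        rcases hr0.eq_or_lt with h6 | h6
        · rw [← h6, Real.sqrt_zero, Real.zero_rpow hs0.ne']
        · rw [Real.sqrt_eq_rpow]
          exact Real.rpow_le_rpow_of_exponent_ge h6 hr1 hs2
      have h6 : s * (L * Real.sqrt r) ≤ Real.sqrt r := by
        rw [← mul_assoc]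
        exact mul_le_of_le_one_left (Real.sqrt_nonneg _) h4
      linarith
    calc c ^ s ≤ (a * (1 + L * Real.sqrt r)) ^ s := Real.rpow_le_rpow hc h1 hs0.le
      _ = a ^ s * (1 + L * Real.sqrt r) ^ s := Real.mul_rpow ha (by positivity)
      _ ≤ a ^ s * (1 + r ^ s) := mul_le_mul_of_nonneg_left h2 (by positivity)
      _ = a ^ s + b ^ s := by
          rw [hbr, Real.mul_rpow ha hr0]
          ring

/-! ### Real and imaginary parts -/

section
variable {𝕜 : Type} [RCLike 𝕜]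

/-- real part -/
noncomputable def reP {P : ℝ≥0∞} (f : Lp 𝕜 P mu) : Lp ℝ P mu :=
  (RCLike.reCLM : 𝕜 →L[ℝ] ℝ).compLp f

/-- imaginary part -/
noncomputable def imP {P : ℝ≥0∞} (f : Lp 𝕜 P mu) : Lp ℝ P mu :=
  (RCLike.imCLM : 𝕜 →L[ℝ] ℝ).compLp f

lemma coe_reP {P : ℝ≥0∞} (f : Lp 𝕜 P mu) : reP f =ᵐ[mu] fun x => RCLike.re (f x) := by
  filter_upwards [ContinuousLinearMap.coeFn_compLp (RCLike.reCLM : 𝕜 →L[ℝ] ℝ) f] with x hx
  unfold reP
  rw [hx]
  rfl

lemma coe_imP {P : ℝ≥0∞} (f : Lp 𝕜 P mu) : imP f =ᵐ[mu] fun x => RCLike.im (f x) := by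
  filter_upwards [ContinuousLinearMap.coeFn_compLp (RCLike.imCLM : 𝕜 →L[ℝ] ℝ) f] with x hx
  unfold imP
  rw [hx]
  rfl

lemma norm_reP_le {P : ℝ≥0∞} (f : Lp 𝕜 P mu) : ‖reP f‖ ≤ ‖f‖ := by
  refine Lp.norm_le_norm_of_ae_le ?_
  filter_upwards [coe_reP f] with x hx
  rw [hx]
  exact RCLike.norm_re_le_norm _

lemma norm_imP_le {P : ℝ≥0∞} (f : Lp 𝕜 P mu) : ‖imP f‖ ≤ ‖f‖ := by
  refine Lp.norm_le_norm_of_ae_le ?_
  filter_upwards [coe_imP f] with x hx
  rw [hx]
  exact RCLike.norm_im_le_norm _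

lemma norm_le_re_im' (z : 𝕜) : ‖z‖ ≤ |RCLike.re z| + |RCLike.im z| := by
  refine le_of_sq_le_sq ?_ (by positivity)
  rw [RCLike.norm_sq_eq_def]
  nlinarith [abs_nonneg (RCLike.re z), abs_nonneg (RCLike.im z), sq_abs (RCLike.re z),
    sq_abs (RCLike.im z), mul_nonneg (abs_nonneg (RCLike.re z)) (abs_nonneg (RCLike.im z))]

lemma norm_le_reP_imP {P : ℝ≥0∞} [Fact (1 ≤ P)] (f : Lp 𝕜 P mu) :
    ‖f‖ ≤ ‖reP f‖ + ‖imP f‖ := by
  have h1 : ‖f‖ ≤ ‖|reP f| + |imP f|‖ := by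
    refine Lp.norm_le_norm_of_ae_le ?_
    filter_upwards [coe_reP f, coe_imP f, Lp.coeFn_abs (reP f), Lp.coeFn_abs (imP f),
      Lp.coeFn_add (|reP f|) (|imP f|)] with x h1 h2 h3 h4 h5
    rw [h5, Pi.add_apply, h3, h4, h1, h2, Real.norm_of_nonneg (by positivity)]
    exact norm_le_re_im' _
  refine h1.trans ((norm_add_le _ _).trans ?_)
  rw [norm_abs_eq_norm, norm_abs_eq_norm]

lemma coef_re {p : ℝ} (hp : 1 < p) (j : Idx) (f : Lp 𝕜 (ENNReal.ofReal p) mu) :
    coef p j (reP f) = RCLike.re (coef p j f) := by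
  rw [coef_eq, coef_eq]
  have := integral_re (integrable_coef hp j f)
  rw [← this]
  refine integral_congr_ae ?_
  filter_upwards [coe_reP f] with x hx
  rw [hx, RCLike.re_ofReal_mul]
  rfl

lemma coef_im {p : ℝ} (hp : 1 < p) (j : Idx) (f : Lp 𝕜 (ENNReal.ofReal p) mu) :
    coef p j (imP f) = RCLike.im (coef p j f) := by
  rw [coef_eq, coef_eq]
  have := integral_im (integrable_coef hp j f)
  rw [← this]
  refine integral_congr_ae ?_
  filter_upwards [coe_imP f] with x hx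
  rw [hx, RCLike.im_ofReal_mul]
  rfl

/-- absolute values of the coefficients -/
noncomputable def ab (p : ℝ) (f : Lp 𝕜 (ENNReal.ofReal p) mu) : Idx → ℝ≥0 := fun j => ‖coef p j f‖₊

theorem equiv_all {p : ℝ} (hp : 1 < p) [Fact (1 ≤ ENNReal.ofReal p)] :
    ∃ C : ℝ≥0, ∀ f : Lp 𝕜 (ENNReal.ofReal p) mu,
      MM p (ab p f) ≤ C * ENNReal.ofReal ‖f‖ ∧ ENNReal.ofReal ‖f‖ ≤ 2 * MM p (ab p f) := by
  obtain ⟨C, hC⟩ := equiv_real hp
  obtain ⟨D, hM⟩ := latNorm hp
  refine ⟨2 * C, fun f => ⟨?_, ?_⟩⟩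
  · have h1 : MM p (ab p f) ≤ MM p (ab p (reP f)) + MM p (ab p (imP f)) := by
      refine (hM.mono _ _ fun j => ?_).trans (hM.add _ _)
      simp only [Pi.add_apply, ab]
      rw [coef_re hp, coef_im hp]
      rw [← NNReal.coe_le_coe]
      push_cast
      rw [Real.norm_eq_abs, Real.norm_eq_abs]
      exact norm_le_re_im' _
    calc MM p (ab p f) ≤ MM p (ab p (reP f)) + MM p (ab p (imP f)) := h1
      _ ≤ C * ENNReal.ofReal ‖reP f‖ + C * ENNReal.ofReal ‖imP f‖ :=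
          add_le_add (hC _).1 (hC _).1
      _ ≤ C * ENNReal.ofReal ‖f‖ + C * ENNReal.ofReal ‖f‖ := by
          gcongr
          · exact norm_reP_le f
          · exact norm_imP_le f
      _ = (2 * C : ℝ≥0) * ENNReal.ofReal ‖f‖ := by push_cast; ring
  · calc ENNReal.ofReal ‖f‖ ≤ ENNReal.ofReal (‖reP f‖ + ‖imP f‖) :=
          ENNReal.ofReal_le_ofReal (norm_le_reP_imP f)
      _ = ENNReal.ofReal ‖reP f‖ + ENNReal.ofReal ‖imP f‖ :=
          ENNReal.ofReal_add (norm_nonneg _) (norm_nonneg _)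
      _ ≤ MM p (ab p (reP f)) + MM p (ab p (imP f)) := add_le_add (hC _).2 (hC _).2
      _ ≤ MM p (ab p f) + MM p (ab p f) := by
          refine add_le_add (hM.mono _ _ fun j => ?_) (hM.mono _ _ fun j => ?_)
          · simp only [ab]
            rw [coef_re hp, ← NNReal.coe_le_coe]
            exact RCLike.norm_re_le_norm _
          · simp only [ab]
            rw [coef_im hp, ← NNReal.coe_le_coe]
            exact RCLike.norm_im_le_norm _
      _ = 2 * MM p (ab p f) := (two_mul _).symm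

/-- Superlevel sets of the coefficients are finite. -/
lemma finL_ab {p : ℝ} (hp : 1 < p) [Fact (1 ≤ ENNReal.ofReal p)] (f : Lp 𝕜 (ENNReal.ofReal p) mu) : FinL (ab p f) := by
  obtain ⟨C, hC, h⟩ := HA_norm (conj_exp hp).symm.lt
  set q := p / (p - 1) with hq
  have hp0 : 0 < p := by linarith
  have hpq : 1 / q + 1 / p = 1 := by
    have h3 : p ≠ 0 := by linarith
    have h4 : p - 1 ≠ 0 := by linarith
    rw [hq]
    field_simp
    ring
  intro τ hτ
  by_contra hinf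
  have hinf' : {j | τ ≤ ab p f j}.Infinite := hinf
  -- bound of the cardinality
  have hb : ∀ A : Finset Idx, (∀ j ∈ A, τ ≤ ab p f j) →
      (A.card : ℝ) ^ (1 / p) ≤ C * ‖f‖ / τ := by
    intro A hA
    rcases A.eq_empty_or_nonempty with rfl | hne
    · rw [card_empty, Nat.cast_zero, Real.zero_rpow (by positivity)]
      positivity
    have hA0 : (0 : ℝ) < A.card := by exact_mod_cast hne.card_pos
    have e1 := sum_coef_le hp A f
    have e2 : (A.card : ℝ) * τ ≤ ∑ j ∈ A, ‖coef p j f‖ := by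
      have : ∑ _j ∈ A, (τ : ℝ) ≤ ∑ j ∈ A, ‖coef p j f‖ :=
        sum_le_sum fun j hj => by exact_mod_cast hA j hj
      simpa using this
    have e3 : (A.card : ℝ) * τ ≤ C * (A.card : ℝ) ^ (1 / q) * ‖f‖ :=
      (e2.trans e1).trans (mul_le_mul_of_nonneg_right (h A) (norm_nonneg f))
    have e4 : (A.card : ℝ) = (A.card : ℝ) ^ (1 / q) * (A.card : ℝ) ^ (1 / p) := by
      rw [← Real.rpow_add hA0, hpq, Real.rpow_one]
    have e5 : (0 : ℝ) < (A.card : ℝ) ^ (1 / q) := Real.rpow_pos_of_pos hA0 _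
    have hτ' : (0 : ℝ) < τ := hτ
    rw [le_div_iff₀ hτ']
    have e6 : (A.card : ℝ) ^ (1 / q) * ((A.card : ℝ) ^ (1 / p) * τ) ≤
        (A.card : ℝ) ^ (1 / q) * (C * ‖f‖) := by
      calc (A.card : ℝ) ^ (1 / q) * ((A.card : ℝ) ^ (1 / p) * τ)
          = ((A.card : ℝ) ^ (1 / q) * (A.card : ℝ) ^ (1 / p)) * τ := by ring
        _ = A.card * τ := by rw [← e4]
        _ ≤ C * (A.card : ℝ) ^ (1 / q) * ‖f‖ := e3
        _ = _ := by ring
    exact le_of_mul_le_mul_left e6 e5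
  -- contradiction
  obtain ⟨n, hn⟩ := exists_nat_gt ((C * ‖f‖ / τ) ^ p)
  obtain ⟨A, hA, hAn⟩ := hinf'.exists_subset_card_eq n
  have h1 := hb A fun j hj => hA hj
  rw [hAn] at h1
  have h2 : (((n : ℝ) ^ (1 / p)) ^ p) ≤ (C * ‖f‖ / τ) ^ p :=
    Real.rpow_le_rpow (by positivity) h1 hp0.le
  rw [← Real.rpow_mul (by positivity), one_div, inv_mul_cancel₀ hp0.ne', Real.rpow_one] at h2
  linarith

/-- The new functional on `L_p`. -/
noncomputable def Nf (p : ℝ) (f : Lp 𝕜 (ENNReal.ofReal p) mu) : ℝ := (NN (MM p) (ab p f)).toReal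

end

end Pool.Agent.R221.HG
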