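import Pool.Agent.H66R3.PG.Dens
import Pool.Agent.R221.HG.Abs

/-!
# The Haar system of `L_p[0,1]`
-/

open MeasureTheory Finset Pool.Agent.H66R3.PG
open scoped ENNReal NNReal

namespace Pool.Agent.R221.HG

/-- The indices of the Haar functions: `none` for the constant function, and the pairs `(n, k)`
with `0 ≤ k < 2 ^ n`. -/
abbrev Idx : Type := Option (Σ n : ℕ, Fin (2 ^ n))

/-- The Haar functions, normalised in `L_p`. -/
noncomputable def haarFun (p : ℝ) : Idx → ℝ → ℝ
  | none => Set.indicator (Set.Ico 0 1) (fun _ => 1)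
  | some ⟨n, k⟩ => fun x => (2 : ℝ) ^ ((n : ℝ) / p) *
      (Set.indicator (Set.Ico ((k : ℝ) / 2 ^ n) (((k : ℝ) + 1 / 2) / 2 ^ n)) (fun _ => (1 : ℝ)) x
        - Set.indicator (Set.Ico (((k : ℝ) + 1 / 2) / 2 ^ n) (((k : ℝ) + 1) / 2 ^ n))
          (fun _ => (1 : ℝ)) x)

lemma measurable_haarFun (p : ℝ) (j : Idx) : Measurable (haarFun p j) := by
  rcases j with _ | ⟨n, k⟩
  · exact measurable_const.indicator measurableSet_Ico
  · exact ((measurable_const.indicator measurableSet_Ico).sub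
      (measurable_const.indicator measurableSet_Ico)).const_mul _

lemma bounded_haarFun (p : ℝ) (j : Idx) : ∃ C : ℝ, ∀ x, |haarFun p j x| ≤ C := by
  have hind : ∀ (s : Set ℝ) (x : ℝ), |Set.indicator s (fun _ => (1 : ℝ)) x| ≤ 1 := by
    intro s x
    by_cases h : x ∈ s
    · rw [Set.indicator_of_mem h]; simp
    · rw [Set.indicator_of_notMem h]; simp
  rcases j with _ | ⟨n, k⟩
  · exact ⟨1, hind _⟩
  · refine ⟨(2 : ℝ) ^ ((n : ℝ) / p) * (1 + 1), fun x => ?_⟩
    simp only [haarFun]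
    rw [abs_mul, abs_of_pos (by positivity : (0 : ℝ) < 2 ^ ((n : ℝ) / p))]
    refine mul_le_mul_of_nonneg_left ?_ (by positivity)
    exact (abs_sub _ _).trans (add_le_add (hind _ _) (hind _ _))

/-! ### Words and dyadic intervals -/

/-- The word of a dyadic interval. -/
noncomputable def dec (j : Σ n : ℕ, Fin (2 ^ n)) : List Bool :=
  pre j.1 (dig (((j.2 : ℕ) : ℝ) / 2 ^ j.1))

lemma length_dec (j : Σ n : ℕ, Fin (2 ^ n)) : (dec j).length = j.1 := pre_length _ _

lemma div_mem (n k : ℕ) (hk : k < 2 ^ n) : (k : ℝ) / 2 ^ n ∈ Set.Ico (0 : ℝ) 1 := by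
  have hp : (0 : ℝ) < 2 ^ n := by positivity
  exact ⟨by positivity, by rw [div_lt_one hp]; exact_mod_cast hk⟩

lemma two_half (n : ℕ) : (2 : ℝ) ^ n * (1 / 2) ^ n = 1 := by rw [← mul_pow]; norm_num

lemma base_dig (n k : ℕ) (hk : k < 2 ^ n) : base (dig ((k : ℝ) / 2 ^ n)) n = (k : ℝ) / 2 ^ n := by
  have hp : (0 : ℝ) < 2 ^ n := by positivity
  have h1 := (cell_iff (dig ((k : ℝ) / 2 ^ n)) n _ (div_mem n k hk)).1 (fun _ _ => rfl)
  obtain ⟨N, hN⟩ := base_int (dig ((k : ℝ) / 2 ^ n)) n
  have e0 : (2 : ℝ) ^ n * ((k : ℝ) / 2 ^ n) = k := mul_div_cancel₀ _ hp.ne'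
  have h3 : (N : ℝ) ≤ k := by
    rw [← hN]
    have := mul_le_mul_of_nonneg_left h1.1 hp.le
    rwa [e0] at this
  have h4 : (k : ℝ) < N + 1 := by
    have := mul_lt_mul_of_pos_left h1.2 hp
    rw [e0, mul_add, hN, two_half] at this
    exact this
  have h5 : N = k := by
    have e1 : N ≤ (k : ℤ) := by exact_mod_cast h3
    have e2 : (k : ℤ) < N + 1 := by exact_mod_cast h4
    omega
  rw [eq_div_iff hp.ne', mul_comm, hN, h5]
  simp

lemma pre_eq_pre (n : ℕ) (x y : ℕ → Bool) : pre n x = pre n y ↔ ∀ i < n, x i = y i := by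
  constructor
  · intro h i hi
    have h1 : ∀ z : ℕ → Bool, (pre n z)[i]? = some (z i) := by
      intro z
      unfold pre
      rw [List.getElem?_map, List.getElem?_range hi]
      rfl
    have h2 := h1 x
    rw [h, h1 y] at h2
    exact (Option.some.inj h2).symm
  · exact pre_congr

lemma pre_dec_iff (j : Σ n : ℕ, Fin (2 ^ n)) {x : ℝ} (hx : x ∈ Set.Ico (0 : ℝ) 1) :
    pre j.1 (dig x) = dec j ↔
      x ∈ Set.Ico (((j.2 : ℕ) : ℝ) / 2 ^ j.1) ((((j.2 : ℕ) : ℝ) + 1) / 2 ^ j.1) := by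
  unfold dec
  rw [pre_eq_pre, cell_iff _ _ _ hx, base_dig _ _ j.2.2]
  have : ((j.2 : ℕ) : ℝ) / 2 ^ j.1 + (1 / 2) ^ j.1 = (((j.2 : ℕ) : ℝ) + 1) / 2 ^ j.1 := by
    rw [add_div, one_div_pow]
  rw [this]

lemma dec_injective : Function.Injective dec := by
  rintro ⟨n, k⟩ ⟨m, l⟩ h
  have hlen := congrArg List.length h
  rw [length_dec, length_dec] at hlen
  simp only at hlen
  subst hlen
  have hp : (0 : ℝ) < 2 ^ n := by positivity
  have h1 := (pre_dec_iff ⟨n, l⟩ (div_mem n k k.2)).1 h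
  simp only [Set.mem_Ico] at h1
  rw [div_le_div_iff_of_pos_right hp, div_lt_div_iff_of_pos_right hp] at h1
  have e1 : (l : ℕ) ≤ k := by exact_mod_cast h1.1
  have e2 : (k : ℕ) < l + 1 := by exact_mod_cast h1.2
  have : k = l := Fin.ext (by omega)
  rw [this]

lemma dec_surjective : Function.Surjective dec := by
  intro l
  set n := l.length with hn
  set w : ℕ → Bool := fun i => l.getD i false with hw
  have hp : (0 : ℝ) < 2 ^ n := by positivity
  obtain ⟨N, hN⟩ := base_int w n
  have h0 := base_nonneg w n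
  have h1 := base_le w n
  have hpn : (0 : ℝ) < (1 / 2) ^ n := by positivity
  have hN0 : 0 ≤ N := by
    have : (0 : ℝ) ≤ N := by rw [← hN]; positivity
    exact_mod_cast this
  obtain ⟨k, rfl⟩ := Int.eq_ofNat_of_zero_le hN0
  have hk : k < 2 ^ n := by
    have : (k : ℝ) < 2 ^ n := by
      have h2 : base w n < 1 := by linarith
      have h3 := mul_lt_mul_of_pos_left h2 hp
      rw [hN, mul_one] at h3
      exact_mod_cast h3
    exact_mod_cast this
  have hb : base w n = (k : ℝ) / 2 ^ n := by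
    rw [eq_div_iff hp.ne', mul_comm, hN]; simp
  refine ⟨⟨n, ⟨k, hk⟩⟩, ?_⟩
  unfold dec
  simp only
  rw [← hb]
  have hx : base w n ∈ Set.Ico (0 : ℝ) 1 := ⟨h0, by linarith⟩
  have h2 := (cell_iff w n (base w n) hx).2 ⟨le_rfl, by linarith⟩
  exact (pre_eq_iff l _).2 h2

lemma wt_eq (p : ℝ) (n : ℕ) : wt p n = (2 : ℝ) ^ ((n : ℝ) / p) := by
  unfold wt
  rw [← Real.rpow_natCast, ← Real.rpow_mul (by norm_num)]
  congr 1
  ring

lemma haarFun_none (p : ℝ) {x : ℝ} (hx : x ∈ Set.Ico (0 : ℝ) 1) : haarFun p none x = 1 := by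
  simp only [haarFun]
  exact Set.indicator_of_mem hx _

lemma haarFun_some (p : ℝ) (j : Σ n : ℕ, Fin (2 ^ n)) {x : ℝ} (hx : x ∈ Set.Ico (0 : ℝ) 1) :
    haarFun p (some j) x = haar p (dec j) (dig x) := by
  obtain ⟨n, k⟩ := j
  have hp : (0 : ℝ) < 2 ^ n := by positivity
  have hcell := pre_dec_iff ⟨n, k⟩ hx
  simp only at hcell
  unfold haar cellI
  rw [length_dec, wt_eq]
  simp only [haarFun, Set.indicator_apply, Set.mem_Ico]
  rw [Set.mem_Ico] at hcell
  by_cases h : (k : ℝ) / 2 ^ n ≤ x ∧ x < ((k : ℝ) + 1) / 2 ^ n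
  · rw [if_pos (hcell.2 h)]
    have e1 : (2 * k : ℝ) ≤ 2 ^ (n + 1) * x := by
      have := h.1
      rw [div_le_iff₀ hp] at this
      rw [pow_succ]
      linarith
    have e2 : 2 ^ (n + 1) * x < 2 * k + 2 := by
      have := h.2
      rw [lt_div_iff₀ hp] at this
      rw [pow_succ]
      linarith
    by_cases h' : x < ((k : ℝ) + 1 / 2) / 2 ^ n
    · have h3 : ¬ (((k : ℝ) + 1 / 2) / 2 ^ n ≤ x ∧ x < ((k : ℝ) + 1) / 2 ^ n) :=
        fun hh => absurd h' (not_lt.2 hh.1)
      rw [if_pos ⟨h.1, h'⟩, if_neg h3]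
      have e3 : 2 ^ (n + 1) * x < 2 * k + 1 := by
        rw [lt_div_iff₀ hp] at h'
        rw [pow_succ]
        linarith
      have e4 : ⌊(2 : ℝ) ^ (n + 1) * x⌋ = 2 * (k : ℕ) := by
        rw [Int.floor_eq_iff]
        push_cast
        exact ⟨e1, e3⟩
      have e5 : dig x n = false := by
        unfold dig
        rw [e4]
        simp
      simp [rd, e5]
    · have h3 : ¬ ((k : ℝ) / 2 ^ n ≤ x ∧ x < ((k : ℝ) + 1 / 2) / 2 ^ n) := fun hh => h' hh.2
      push Not at h'
      rw [if_neg h3, if_pos ⟨h', h.2⟩]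
      have e3 : (2 * k + 1 : ℝ) ≤ 2 ^ (n + 1) * x := by
        rw [div_le_iff₀ hp] at h'
        rw [pow_succ]
        linarith
      have e4 : ⌊(2 : ℝ) ^ (n + 1) * x⌋ = 2 * (k : ℕ) + 1 := by
        rw [Int.floor_eq_iff]
        push_cast
        exact ⟨e3, by linarith⟩
      have e5 : dig x n = true := by
        unfold dig
        rw [e4]
        simp
      simp [rd, e5]
  · rw [if_neg fun hh => h (hcell.1 hh)]
    have hhalf : ((k : ℝ) + 1 / 2) / 2 ^ n < ((k : ℝ) + 1) / 2 ^ n := by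
      rw [div_lt_div_iff_of_pos_right hp]; linarith
    have hhalf' : (k : ℝ) / 2 ^ n < ((k : ℝ) + 1 / 2) / 2 ^ n := by
      rw [div_lt_div_iff_of_pos_right hp]; linarith
    have h1 : ¬ ((k : ℝ) / 2 ^ n ≤ x ∧ x < ((k : ℝ) + 1 / 2) / 2 ^ n) :=
      fun hh => h ⟨hh.1, hh.2.trans hhalf⟩
    have h2 : ¬ (((k : ℝ) + 1 / 2) / 2 ^ n ≤ x ∧ x < ((k : ℝ) + 1) / 2 ^ n) :=
      fun hh => h ⟨hhalf'.le.trans hh.1, hh.2⟩
    rw [if_neg h1, if_neg h2]
    ring

/-- Haar functions as functions of the digits. -/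
noncomputable def hd (p : ℝ) : Idx → (ℕ → Bool) → ℝ
  | none => fun _ => 1
  | some j => haar p (dec j)

/-- Level of a Haar function. -/
def hl : Idx → ℕ
  | none => 0
  | some j => j.1 + 1

lemma dep_hd (p : ℝ) (j : Idx) : Dep (hl j) (hd p j) := by
  rcases j with _ | j
  · exact dep_const 0 1
  · have := dep_haar p (dec j)
    rw [length_dec] at this
    exact this

lemma ae_Ico : ∀ᵐ x ∂mu, x ∈ Set.Ico (0 : ℝ) 1 := by
  unfold mu
  rw [← Measure.restrict_congr_set Ico_ae_eq_Icc]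
  exact ae_restrict_mem measurableSet_Ico

lemma haarFun_eq (p : ℝ) (j : Idx) {x : ℝ} (hx : x ∈ Set.Ico (0 : ℝ) 1) :
    haarFun p j x = hd p j (dig x) := by
  rcases j with _ | j
  · exact haarFun_none p hx
  · exact haarFun_some p j hx

lemma haarFun_ae (p : ℝ) (j : Idx) : haarFun p j =ᵐ[mu] fun x => hd p j (dig x) := by
  filter_upwards [ae_Ico] with x hx
  exact haarFun_eq p j hx

/-! ### The vectors and the coefficients -/

section
variable (𝕜 : Type) [RCLike 𝕜]

lemma memLp_haarFun (p : ℝ) (j : Idx) :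
    MemLp (fun x => ((haarFun p j x : ℝ) : 𝕜)) (ENNReal.ofReal p) mu := by
  obtain ⟨C, hC⟩ := bounded_haarFun p j
  refine MemLp.of_bound ?_ C (Filter.Eventually.of_forall fun x => ?_)
  · exact (RCLike.measurable_ofReal.comp (measurable_haarFun p j)).aestronglyMeasurable
  · rw [RCLike.norm_ofReal]; exact hC x

/-- The Haar functions as elements of `L_p`. -/
noncomputable def hv (p : ℝ) (j : Idx) : Lp 𝕜 (ENNReal.ofReal p) mu := (memLp_haarFun 𝕜 p j).toLp _

variable {𝕜}

/-- The coefficient of `f` at the Haar function `j`: the integral of `f` against the Haar function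
normalised in the dual space. -/
noncomputable def coef (p : ℝ) (j : Idx) (f : Lp 𝕜 (ENNReal.ofReal p) mu) : 𝕜 :=
  ∫ x, ((haarFun (p / (p - 1)) j x : ℝ) : 𝕜) * f x ∂mu

end

lemma hv_real (p : ℝ) (j : Idx) : hv ℝ p j = cl (ENNReal.ofReal p) (hd p j) := by
  apply Lp.ext
  filter_upwards [(memLp_haarFun ℝ p j).coeFn_toLp, coe_cl (P := ENNReal.ofReal p) (dep_hd p j),
    haarFun_ae p j] with x h1 h2 h3
  unfold hv
  rw [h1, h2, h3]
  rfl

/-! ### Biorthogonality -/

lemma E_cell_mul (l l' : List Bool) (h : l.length = l'.length) (x : ℕ → Bool) :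
    cellI l x * cellI l' x = if l = l' then cellI l x else 0 := by
  unfold cellI
  by_cases h1 : pre l.length x = l
  · rw [if_pos h1]
    by_cases h2 : l = l'
    · subst h2; simp [h1]
    · rw [if_neg h2, if_neg, mul_zero]
      rw [← h, h1]; exact h2
  · rw [if_neg h1, zero_mul]
    split_ifs <;> rfl

lemma conj_exp {p : ℝ} (hp : 1 < p) : p.HolderConjugate (p / (p - 1)) :=
  Real.HolderConjugate.conjExponent hp

lemma wt_mul {p : ℝ} (hp : 1 < p) (n : ℕ) : wt (p / (p - 1)) n * wt p n = 2 ^ n := by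
  unfold wt
  rw [← Real.rpow_add (by positivity)]
  have : 1 / (p / (p - 1)) + 1 / p = 1 := by
    have h1 : p ≠ 0 := by linarith
    have h2 : p - 1 ≠ 0 := by linarith
    field_simp
    ring
  rw [this, Real.rpow_one]

lemma E_haar (q : ℝ) (l : List Bool) : E (haar q l) = 0 := by
  have hD : Dep l.length (fun x => wt q l.length * cellI l x) :=
    (dep_const _ _).mul (dep_cellI l)
  exact E_rd_zero hD _ (flip_of_dep hD le_rfl)

lemma E_haar_haar {p : ℝ} (hp : 1 < p) (l l' : List Bool) :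
    E (fun x => haar (p / (p - 1)) l x * haar p l' x) = if l = l' then 1 else 0 := by
  set q := p / (p - 1) with hq
  rcases lt_trichotomy l.length l'.length with h | h | h
  · rw [if_neg (fun e => by rw [e] at h; exact lt_irrefl _ h)]
    have hD : Dep l'.length (fun x => haar q l x * (wt p l'.length * cellI l' x)) :=
      ((dep_haar q l).mono h).mul ((dep_const _ _).mul (dep_cellI l'))
    have h1 : (fun x => haar q l x * haar p l' x) =
        fun x => (haar q l x * (wt p l'.length * cellI l' x)) * rd l'.length x := by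
      funext x; unfold haar; ring
    rw [h1]
    exact E_rd_zero hD _ (flip_of_dep hD le_rfl)
  · have h1 : (fun x => haar q l x * haar p l' x) =
        fun x => (wt q l.length * wt p l.length) * (if l = l' then cellI l x else 0) := by
      funext x
      unfold haar
      rw [← E_cell_mul l l' h x, ← h]
      linear_combination (wt q l.length * cellI l x * wt p l.length * cellI l' x) *
        rd_sq l.length x
    rw [h1, E_mul_left, hq, wt_mul hp]
    split_ifs with h2
    · rw [E_cellI, two_half]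
    · rw [E_const, mul_zero]
  · rw [if_neg (fun e => by rw [e] at h; exact lt_irrefl _ h)]
    have hD : Dep l.length (fun x => haar p l' x * (wt q l.length * cellI l x)) :=
      ((dep_haar p l').mono h).mul ((dep_const _ _).mul (dep_cellI l))
    have h1 : (fun x => haar q l x * haar p l' x) =
        fun x => (haar p l' x * (wt q l.length * cellI l x)) * rd l.length x := by
      funext x; unfold haar; ring
    rw [h1]
    exact E_rd_zero hD _ (flip_of_dep hD le_rfl)

lemma E_hd_hd {p : ℝ} (hp : 1 < p) (i j : Idx) :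
    E (fun x => hd (p / (p - 1)) i x * hd p j x) = if i = j then 1 else 0 := by
  rcases i with _ | i <;> rcases j with _ | j
  · simp only [hd, if_true, mul_one]
    exact E_const 1
  · simp only [hd, one_mul, reduceCtorEq, if_false]
    exact E_haar p (dec j)
  · simp only [hd, mul_one, reduceCtorEq, if_false]
    exact E_haar _ (dec i)
  · simp only [hd]
    rw [E_haar_haar hp]
    by_cases h : i = j
    · simp [h]
    · rw [if_neg fun e => h (dec_injective e), if_neg fun e => h (Option.some.inj e)]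

end Pool.Agent.R221.HG
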