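import Pool.Agent.R221.HG.Dem

/-!
# The lattice norm of the Haar coefficients
-/

open MeasureTheory Finset Pool.Agent.H66R3.PG
open scoped ENNReal NNReal

namespace Pool.Agent.R221.HG

/-! ### Unconditionality -/

/-- Finite Haar sums as classes of cylinder functions. -/
lemma sum_eq_cl {p : ℝ} (hp : 1 < p) [Fact (1 ≤ ENNReal.ofReal p)] (F : Finset Idx)
    (a : Idx → ℝ) : ∑ j ∈ F, a j • hv ℝ p j =
      cl (ENNReal.ofReal p) (hsum p (F.eraseNone.image dec) (if none ∈ F then a none else 0)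
        (Function.extend dec (fun j => a (some j)) 0)) := by
  classical
  obtain ⟨n, hn⟩ := exists_level F
  have h1 : ∑ j ∈ F, a j • hv ℝ p j =
      cl (ENNReal.ofReal p) (fun x => ∑ j ∈ F, a j * hd p j x) := by
    rw [cl_sum F a (fun j hj => (dep_hd p j).mono (hn j hj))]
    exact sum_congr rfl fun j _ => by rw [hv_real]
  rw [h1]
  congr 1
  funext x
  unfold hsum
  rw [sum_image fun a _ b _ hab => dec_injective hab]
  have h2 : ∑ j ∈ F.eraseNone, Function.extend dec (fun j => a (some j)) 0 (dec j) *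
      haar p (dec j) x = ∑ j ∈ F.eraseNone, a (some j) * hd p (some j) x := by
    refine sum_congr rfl fun j _ => ?_
    rw [dec_injective.extend_apply]
    rfl
  rw [h2]
  have h3 : ∀ G : Finset Idx, none ∉ G → ∑ j ∈ G, a j * hd p j x =
      ∑ j ∈ G.eraseNone, a (some j) * hd p (some j) x := by
    intro G hG
    refine (sum_bij (fun j _ => some j) ?_ ?_ ?_ ?_).symm
    · intro j hj
      rwa [Finset.mem_eraseNone] at hj
    · intro a _ b _ hab; exact Option.some.inj hab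
    · intro b hb
      have : b ≠ none := fun e => hG (e ▸ hb)
      obtain ⟨j, rfl⟩ := Option.ne_none_iff_exists'.1 this
      exact ⟨j, Finset.mem_eraseNone.2 hb, rfl⟩
    · intro j _
      rfl
  by_cases hF : none ∈ F
  · rw [if_pos hF]
    conv_lhs => rw [← Finset.insert_erase hF]
    rw [sum_insert (notMem_erase _ _), h3 _ (notMem_erase _ _)]
    have : (F.erase none).eraseNone = F.eraseNone := by
      ext j
      simp [Finset.mem_eraseNone]
    rw [this]
    simp [hd]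
  · rw [if_neg hF, zero_add]
    exact h3 F hF

theorem unc_real {p : ℝ} (hp : 1 < p) [Fact (1 ≤ ENNReal.ofReal p)] : ∃ C : ℝ, 0 < C ∧
    ∀ (F : Finset Idx) (a θ : Idx → ℝ), (∀ j, |θ j| ≤ 1) →
      ‖∑ j ∈ F, (θ j * a j) • hv ℝ p j‖ ≤ C * ‖∑ j ∈ F, a j • hv ℝ p j‖ := by
  classical
  obtain ⟨C, hC, h⟩ := unc_haar hp
  refine ⟨C, hC, fun F a θ hθ => ?_⟩
  have hP : 1 < (ENNReal.ofReal p).toReal := by rw [toReal_ofReal' hp]; exact hp
  rw [sum_eq_cl hp F a, sum_eq_cl hp F (fun j => θ j * a j), norm_cl hP (dep_hsum _ _ _ _),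
    norm_cl hP (dep_hsum _ _ _ _), toReal_ofReal' hp]
  have h1 := h (F.eraseNone.image dec) (if none ∈ F then a none else 0) (θ none)
    (Function.extend dec (fun j => a (some j)) 0) (Function.extend dec (fun j => θ (some j)) 0)
    (hθ none) (fun l => by
      obtain ⟨j, rfl⟩ := dec_surjective l
      rw [dec_injective.extend_apply]
      exact hθ _)
  have e1 : θ none * (if none ∈ F then a none else 0) =
      if none ∈ F then θ none * a none else 0 := by
    split_ifs <;> simp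
  have e2 : (fun l => Function.extend dec (fun j => θ (some j)) 0 l *
      Function.extend dec (fun j => a (some j)) 0 l) =
      Function.extend dec (fun j => θ (some j) * a (some j)) 0 := by
    funext l
    obtain ⟨j, rfl⟩ := dec_surjective l
    rw [dec_injective.extend_apply, dec_injective.extend_apply, dec_injective.extend_apply]
  rw [e1, e2] at h1
  exact h1

/-! ### Density -/

lemma cl_mem_span {p : ℝ} (hp : 1 < p) [Fact (1 ≤ ENNReal.ofReal p)] {F : (ℕ → Bool) → ℝ}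
    (hF : F ∈ SH p) : (∃ n, Dep n F) ∧
      cl (ENNReal.ofReal p) F ∈ Submodule.span ℝ (Set.range (hv ℝ p)) := by
  induction hF using Submodule.span_induction with
  | mem x hx =>
    obtain ⟨i, rfl⟩ := hx
    rcases i with _ | l
    · refine ⟨⟨0, dep_const 0 1⟩, Submodule.subset_span ⟨none, ?_⟩⟩
      rw [hv_real]
      rfl
    · obtain ⟨j, rfl⟩ := dec_surjective l
      refine ⟨⟨_, dep_haar p _⟩, Submodule.subset_span ⟨some j, ?_⟩⟩
      rw [hv_real]
      rfl
  | zero =>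
    refine ⟨⟨0, dep_const 0 0⟩, ?_⟩
    have : cl (ENNReal.ofReal p) (0 : (ℕ → Bool) → ℝ) = 0 := cl_zero
    rw [this]; exact Submodule.zero_mem _
  | add a b _ _ ha hb =>
    obtain ⟨⟨n, hn⟩, ha⟩ := ha
    obtain ⟨⟨m, hm⟩, hb⟩ := hb
    have h1 := hn.mono (le_max_left n m)
    have h2 := hm.mono (le_max_right n m)
    refine ⟨⟨_, h1.add h2⟩, ?_⟩
    have : cl (ENNReal.ofReal p) (a + b) = cl _ a + cl _ b := cl_add h1 h2
    rw [this]; exact Submodule.add_mem _ ha hb
  | smul c a _ ha =>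
    obtain ⟨⟨n, hn⟩, ha⟩ := ha
    refine ⟨⟨n, (dep_const n c).mul hn⟩, ?_⟩
    have : cl (ENNReal.ofReal p) (c • a) = c • cl _ a := cl_smul hn c
    rw [this]; exact Submodule.smul_mem _ _ ha

lemma exists_comb {p : ℝ} (hp : 1 < p) [Fact (1 ≤ ENNReal.ofReal p)]
    (f : Lp ℝ (ENNReal.ofReal p) mu) {ε : ℝ} (hε : 0 < ε) :
    ∃ (F : Finset Idx) (b : Idx → ℝ), ‖f - ∑ j ∈ F, b j • hv ℝ p j‖ < ε := by
  classical
  obtain ⟨n, G, hG, h⟩ := exists_cyl ENNReal.ofReal_ne_top f hε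
  have h1 := (cl_mem_span hp (cyl_SH p hG)).2
  rw [Finsupp.mem_span_range_iff_exists_finsupp] at h1
  obtain ⟨c, hc⟩ := h1
  refine ⟨c.support, c, ?_⟩
  rw [Finsupp.sum] at hc
  rw [hc]
  exact h

/-! ### The lattice norm -/

/-- The lattice norm of a family. -/
noncomputable def MM (p : ℝ) (u : Idx → ℝ≥0) : ℝ≥0∞ :=
  ⨆ (F : Finset Idx) (θ : Idx → ℝ) (_ : ∀ j, |θ j| ≤ 1),
    ENNReal.ofReal ‖∑ j ∈ F, (θ j * (u j : ℝ)) • hv ℝ p j‖

lemma le_MM (p : ℝ) (u : Idx → ℝ≥0) (F : Finset Idx) (θ : Idx → ℝ) (hθ : ∀ j, |θ j| ≤ 1) :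
    ENNReal.ofReal ‖∑ j ∈ F, (θ j * (u j : ℝ)) • hv ℝ p j‖ ≤ MM p u :=
  le_iSup_of_le F (le_iSup_of_le θ (le_iSup_of_le hθ le_rfl))

lemma MM_le {p : ℝ} {u : Idx → ℝ≥0} {K : ℝ≥0∞} (h : ∀ (F : Finset Idx) (θ : Idx → ℝ),
    (∀ j, |θ j| ≤ 1) → ENNReal.ofReal ‖∑ j ∈ F, (θ j * (u j : ℝ)) • hv ℝ p j‖ ≤ K) :
    MM p u ≤ K :=
  iSup_le fun F => iSup_le fun θ => iSup_le fun hθ => h F θ hθ

lemma norm_HA_le {p : ℝ} (hp : 1 < p) [Fact (1 ≤ ENNReal.ofReal p)] (A F : Finset Idx)
    (θ : Idx → ℝ) (hθ : ∀ j, |θ j| ≤ 1) :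
    ‖∑ j ∈ F, (θ j * ((ind A j : ℝ≥0) : ℝ)) • hv ℝ p j‖ ≤ nm p (HA p A) := by
  classical
  obtain ⟨n, hn⟩ := exists_level (F ∪ A)
  have hnF : ∀ j ∈ F, hl j ≤ n := fun j hj => hn j (mem_union_left _ hj)
  have hnA : ∀ j ∈ A, hl j ≤ n := fun j hj => hn j (mem_union_right _ hj)
  have hp0 : 0 < p := by linarith
  have hP : 1 < (ENNReal.ofReal p).toReal := by rw [toReal_ofReal' hp]; exact hp
  have h1 : ∑ j ∈ F, (θ j * ((ind A j : ℝ≥0) : ℝ)) • hv ℝ p j =
      cl (ENNReal.ofReal p) (fun x => ∑ j ∈ F, (θ j * ((ind A j : ℝ≥0) : ℝ)) * hd p j x) := by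
    rw [cl_sum F _ (fun j hj => (dep_hd p j).mono (hnF j hj))]
    exact sum_congr rfl fun j _ => by rw [hv_real]
  have hD : Dep n (fun x => ∑ j ∈ F, (θ j * ((ind A j : ℝ≥0) : ℝ)) * hd p j x) :=
    Dep.sum _ fun j hj => (dep_const n _).mul ((dep_hd p j).mono (hnF j hj))
  rw [h1, norm_cl hP hD, toReal_ofReal' hp]
  unfold nm
  refine Real.rpow_le_rpow (E_rpow_nonneg p _) ?_ (by positivity)
  refine E_mono (n := n) (hD.map (fun u => |u| ^ p)) ((dep_HA p A hnA).map (fun u => |u| ^ p)) ?_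
  intro x
  refine Real.rpow_le_rpow (abs_nonneg _) ?_ hp0.le
  rw [abs_of_nonneg (HA_nonneg p A x)]
  refine (abs_sum_le_sum_abs _ _).trans ?_
  calc ∑ j ∈ F, |θ j * ((ind A j : ℝ≥0) : ℝ) * hd p j x| ≤
        ∑ j ∈ F, (if j ∈ A then |hd p j x| else 0) := by
        refine sum_le_sum fun j _ => ?_
        unfold ind
        by_cases hj : j ∈ A
        · simp only [hj, if_true]
          rw [NNReal.coe_one, mul_one, abs_mul]
          exact mul_le_of_le_one_left (abs_nonneg _) (hθ j)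
        · simp [hj]
    _ = ∑ j ∈ F ∩ A, |hd p j x| := by rw [sum_ite_mem]
    _ ≤ HA p A x := sum_le_sum_of_subset_of_nonneg inter_subset_right fun _ _ _ => abs_nonneg _

theorem latNorm {p : ℝ} (hp : 1 < p) [Fact (1 ≤ ENNReal.ofReal p)] :
    ∃ D : ℝ≥0, LatNorm (MM p) D := by
  obtain ⟨C1, hC1, h1⟩ := HA_norm hp
  obtain ⟨C2, hC2, h2⟩ := HA_norm (conj_exp hp).symm.lt
  have hp0 : 0 < p := by linarith
  refine ⟨(C1 * C2).toNNReal, ⟨?_, ?_, ?_, ?_⟩⟩
  · intro u v huv
    refine MM_le fun F θ hθ => ?_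
    refine le_trans (le_of_eq ?_) (le_MM p v F (fun j => θ j * ((u j : ℝ) / v j)) fun j => ?_)
    · congr 2
      refine sum_congr rfl fun j _ => ?_
      congr 1
      rcases eq_or_ne (v j) 0 with h0 | h0
      · have : u j = 0 := le_antisymm (h0 ▸ huv j) zero_le
        simp [h0, this]
      · have : (v j : ℝ) ≠ 0 := by exact_mod_cast h0
        field_simp
    · rw [abs_mul]
      have h3 : |(u j : ℝ) / v j| ≤ 1 := by
        rw [abs_of_nonneg (by positivity)]
        exact div_le_one_of_le₀ (by exact_mod_cast huv j) (by positivity)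
      calc |θ j| * |(u j : ℝ) / v j| ≤ 1 * 1 :=
            mul_le_mul (hθ j) h3 (abs_nonneg _) zero_le_one
        _ = 1 := one_mul 1
  · intro u v
    refine MM_le fun F θ hθ => ?_
    have e1 : ∑ j ∈ F, (θ j * (((u + v) j : ℝ≥0) : ℝ)) • hv ℝ p j =
        ∑ j ∈ F, (θ j * (u j : ℝ)) • hv ℝ p j + ∑ j ∈ F, (θ j * (v j : ℝ)) • hv ℝ p j := by
      rw [← sum_add_distrib]
      refine sum_congr rfl fun j _ => ?_
      rw [← add_smul, Pi.add_apply, NNReal.coe_add, mul_add]
    rw [e1]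
    refine (ENNReal.ofReal_le_ofReal (norm_add_le _ _)).trans ?_
    rw [ENNReal.ofReal_add (norm_nonneg _) (norm_nonneg _)]
    exact add_le_add (le_MM p u F θ hθ) (le_MM p v F θ hθ)
  · intro c u
    have e1 : ∀ (F : Finset Idx) (θ : Idx → ℝ),
        ENNReal.ofReal ‖∑ j ∈ F, (θ j * (((c • u) j : ℝ≥0) : ℝ)) • hv ℝ p j‖ =
          c * ENNReal.ofReal ‖∑ j ∈ F, (θ j * (u j : ℝ)) • hv ℝ p j‖ := by
      intro F θ
      have e2 : ∑ j ∈ F, (θ j * (((c • u) j : ℝ≥0) : ℝ)) • hv ℝ p j =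
          (c : ℝ) • ∑ j ∈ F, (θ j * (u j : ℝ)) • hv ℝ p j := by
        rw [smul_sum]
        refine sum_congr rfl fun j _ => ?_
        rw [smul_smul]
        congr 1
        simp only [Pi.smul_apply, smul_eq_mul, NNReal.coe_mul]
        ring
      rw [e2, norm_smul, ENNReal.ofReal_mul (norm_nonneg _)]
      congr 1
      simp
    unfold MM
    simp only [e1, ENNReal.mul_iSup]
  · intro A B hAB
    have hlow : ENNReal.ofReal ((B.card : ℝ) ^ (1 / p)) ≤ ENNReal.ofReal C2 * MM p (ind B) := by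
      have e1 := le_MM p (ind B) B (fun _ => 1) (fun _ => by rw [abs_one])
      set g : Lp ℝ (ENNReal.ofReal p) mu :=
        ∑ j ∈ B, ((1 : ℝ) * ((ind B j : ℝ≥0) : ℝ)) • hv ℝ p j with hg
      have e2 : (B.card : ℝ) ^ (1 / p) ≤ C2 * ‖g‖ := by
        rcases B.eq_empty_or_nonempty with rfl | hB
        · rw [card_empty, Nat.cast_zero, Real.zero_rpow (by positivity)]
          positivity
        have hB0 : (0 : ℝ) < B.card := by exact_mod_cast hB.card_pos
        have e3 := sum_coef_le hp B g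
        have e4 : ∑ j ∈ B, ‖coef p j g‖ = B.card := by
          have : ∀ j ∈ B, ‖coef p j g‖ = 1 := by
            intro j hj
            rw [hg, coef_comb hp, if_pos hj]
            simp [ind, hj]
          rw [sum_congr rfl this]
          simp
        rw [e4] at e3
        have e5 := e3.trans (mul_le_mul_of_nonneg_right (h2 B) (norm_nonneg g))
        set q := p / (p - 1) with hq
        have e6 : (B.card : ℝ) = (B.card : ℝ) ^ (1 / q) * (B.card : ℝ) ^ (1 / p) := by
          rw [← Real.rpow_add hB0]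
          have : 1 / q + 1 / p = 1 := by
            have h3 : p ≠ 0 := by linarith
            have h4 : p - 1 ≠ 0 := by linarith
            rw [hq]
            field_simp
            ring
          rw [this, Real.rpow_one]
        have e7 : (0 : ℝ) < (B.card : ℝ) ^ (1 / q) := Real.rpow_pos_of_pos hB0 _
        have e8 : (B.card : ℝ) ^ (1 / q) * (B.card : ℝ) ^ (1 / p) ≤
            (B.card : ℝ) ^ (1 / q) * (C2 * ‖g‖) := by
          rw [← e6]
          calc (B.card : ℝ) ≤ C2 * (B.card : ℝ) ^ (1 / q) * ‖g‖ := e5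
            _ = _ := by ring
        exact le_of_mul_le_mul_left e8 e7
      calc ENNReal.ofReal ((B.card : ℝ) ^ (1 / p)) ≤ ENNReal.ofReal (C2 * ‖g‖) :=
            ENNReal.ofReal_le_ofReal e2
        _ = ENNReal.ofReal C2 * ENNReal.ofReal ‖g‖ := ENNReal.ofReal_mul hC2.le
        _ ≤ ENNReal.ofReal C2 * MM p (ind B) := by gcongr
    refine MM_le fun F θ hθ => ?_
    calc ENNReal.ofReal ‖∑ j ∈ F, (θ j * ((ind A j : ℝ≥0) : ℝ)) • hv ℝ p j‖
        ≤ ENNReal.ofReal (C1 * (B.card : ℝ) ^ (1 / p)) := by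
          refine ENNReal.ofReal_le_ofReal ((norm_HA_le hp A F θ hθ).trans ((h1 A).trans ?_))
          refine mul_le_mul_of_nonneg_left ?_ hC1.le
          exact Real.rpow_le_rpow (by positivity) (by exact_mod_cast hAB) (by positivity)
      _ = ENNReal.ofReal C1 * ENNReal.ofReal ((B.card : ℝ) ^ (1 / p)) :=
          ENNReal.ofReal_mul hC1.le
      _ ≤ ENNReal.ofReal C1 * (ENNReal.ofReal C2 * MM p (ind B)) := by gcongr
      _ = ((C1 * C2).toNNReal : ℝ≥0∞) * MM p (ind B) := by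
          rw [← mul_assoc, ← ENNReal.ofReal_mul hC1.le]
          rfl

/-! ### Equivalence, real scalars -/

lemma coef_norm_le {𝕜 : Type} [RCLike 𝕜] {p : ℝ} (hp : 1 < p) (j : Idx)
    (f : Lp 𝕜 (ENNReal.ofReal p) mu) :
    ‖coef p j f‖ ≤ nm (p / (p - 1)) (HA (p / (p - 1)) {j}) * ‖f‖ := by
  have := sum_coef_le hp {j} f
  simpa using this

theorem equiv_real {p : ℝ} (hp : 1 < p) [Fact (1 ≤ ENNReal.ofReal p)] :
    ∃ C : ℝ≥0, ∀ f : Lp ℝ (ENNReal.ofReal p) mu,
      MM p (fun j => ‖coef p j f‖₊) ≤ C * ENNReal.ofReal ‖f‖ ∧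
      ENNReal.ofReal ‖f‖ ≤ MM p (fun j => ‖coef p j f‖₊) := by
  classical
  obtain ⟨C, hC, hunc⟩ := unc_real hp
  obtain ⟨D, hM⟩ := latNorm hp
  -- multipliers
  have key : ∀ (F : Finset Idx) (η : Idx → ℝ), (∀ j, |η j| ≤ 1) →
      ∀ f : Lp ℝ (ENNReal.ofReal p) mu,
        ‖∑ j ∈ F, (η j * coef p j f) • hv ℝ p j‖ ≤ C * ‖f‖ := by
    intro F η hη f
    -- combinations
    have hcomb : ∀ (G : Finset Idx) (b : Idx → ℝ),
        ‖∑ j ∈ F, (η j * coef p j (∑ i ∈ G, b i • hv ℝ p i)) • hv ℝ p j‖ ≤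
          C * ‖∑ i ∈ G, b i • hv ℝ p i‖ := by
      intro G b
      have e1 : ∑ j ∈ F, (η j * coef p j (∑ i ∈ G, b i • hv ℝ p i)) • hv ℝ p j =
          ∑ j ∈ G, ((if j ∈ F then η j else 0) * b j) • hv ℝ p j := by
        have e2 : ∀ j ∈ F, (η j * coef p j (∑ i ∈ G, b i • hv ℝ p i)) • hv ℝ p j =
            if j ∈ G then (η j * b j) • hv ℝ p j else 0 := by
          intro j _
          rw [coef_comb hp]
          split_ifs <;> simp
        have e3 : ∀ j ∈ G, ((if j ∈ F then η j else 0) * b j) • hv ℝ p j =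
            if j ∈ F then (η j * b j) • hv ℝ p j else 0 := by
          intro j _
          split_ifs <;> simp
        rw [sum_congr rfl e2, sum_congr rfl e3, sum_ite_mem, sum_ite_mem, inter_comm]
      rw [e1]
      refine hunc G b _ fun j => ?_
      split_ifs
      · exact hη j
      · simp
    -- approximation
    set K : ℝ := ∑ j ∈ F, nm (p / (p - 1)) (HA (p / (p - 1)) {j}) * ‖hv ℝ p j‖ with hK
    have hK0 : 0 ≤ K := sum_nonneg fun j _ => mul_nonneg (nm_nonneg _ _) (norm_nonneg _)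
    have hsmall : ∀ g : Lp ℝ (ENNReal.ofReal p) mu,
        ‖∑ j ∈ F, (η j * coef p j g) • hv ℝ p j‖ ≤ K * ‖g‖ := by
      intro g
      refine (norm_sum_le _ _).trans ?_
      rw [hK, sum_mul]
      refine sum_le_sum fun j _ => ?_
      rw [norm_smul, norm_mul]
      calc ‖η j‖ * ‖coef p j g‖ * ‖hv ℝ p j‖ ≤
            1 * (nm (p / (p - 1)) (HA (p / (p - 1)) {j}) * ‖g‖) * ‖hv ℝ p j‖ := by
            refine mul_le_mul_of_nonneg_right ?_ (norm_nonneg _)
            exact mul_le_mul (hη j) (coef_norm_le hp j g) (norm_nonneg _) zero_le_one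
        _ = _ := by ring
    refine le_of_forall_pos_le_add fun ε hε => ?_
    obtain ⟨G, b, hGb⟩ := exists_comb hp f (ε := ε / (K + C + 1)) (by positivity)
    set y := ∑ i ∈ G, b i • hv ℝ p i with hy
    have e1 : ∑ j ∈ F, (η j * coef p j f) • hv ℝ p j =
        ∑ j ∈ F, (η j * coef p j y) • hv ℝ p j + ∑ j ∈ F, (η j * coef p j (f - y)) • hv ℝ p j := by
      rw [← sum_add_distrib]
      refine sum_congr rfl fun j _ => ?_
      rw [← add_smul, ← mul_add, coef_sub hp]
      congr 2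
      ring
    have e2 : ‖y‖ ≤ ‖f‖ + ‖f - y‖ := by
      have := norm_sub_le f (f - y)
      rwa [sub_sub_cancel] at this
    calc ‖∑ j ∈ F, (η j * coef p j f) • hv ℝ p j‖ ≤ C * ‖y‖ + K * ‖f - y‖ := by
          rw [e1]
          exact (norm_add_le _ _).trans (add_le_add (hcomb G b) (hsmall _))
      _ ≤ C * (‖f‖ + ‖f - y‖) + K * ‖f - y‖ := by gcongr
      _ = C * ‖f‖ + (K + C) * ‖f - y‖ := by ring
      _ ≤ C * ‖f‖ + (K + C + 1) * (ε / (K + C + 1)) := by
          have h1 : (K + C) * ‖f - y‖ ≤ (K + C + 1) * (ε / (K + C + 1)) :=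
            mul_le_mul (by linarith) hGb.le (norm_nonneg _) (by positivity)
          linarith
      _ = C * ‖f‖ + ε := by field_simp
  have upper : ∀ f : Lp ℝ (ENNReal.ofReal p) mu,
      MM p (fun j => ‖coef p j f‖₊) ≤ (C.toNNReal : ℝ≥0) * ENNReal.ofReal ‖f‖ := by
    intro f
    refine MM_le fun F θ hθ => ?_
    have e1 : ∑ j ∈ F, (θ j * ((‖coef p j f‖₊ : ℝ≥0) : ℝ)) • hv ℝ p j =
        ∑ j ∈ F, ((θ j * SignType.sign (coef p j f)) * coef p j f) • hv ℝ p j := by
      refine sum_congr rfl fun j _ => ?_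
      congr 1
      rw [mul_assoc, coe_nnnorm, Real.norm_eq_abs, sign_mul_self]
    rw [e1]
    calc _ ≤ ENNReal.ofReal (C * ‖f‖) := by
          refine ENNReal.ofReal_le_ofReal (key F _ (fun j => ?_) f)
          rw [abs_mul]
          have : |((SignType.sign (coef p j f) : SignType) : ℝ)| ≤ 1 := by
            rcases lt_trichotomy (coef p j f) 0 with h | h | h
            · simp [sign_neg h]
            · simp [h]
            · simp [sign_pos h]
          calc |θ j| * |((SignType.sign (coef p j f) : SignType) : ℝ)| ≤ 1 * 1 :=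
                mul_le_mul (hθ j) this (abs_nonneg _) zero_le_one
            _ = 1 := one_mul 1
      _ = _ := by rw [ENNReal.ofReal_mul hC.le]; rfl
  refine ⟨C.toNNReal, fun f => ⟨upper f, ?_⟩⟩
  -- lower bound
  refine ENNReal.le_of_forall_pos_le_add fun ε hε _ => ?_
  have hε' : (0 : ℝ) < ε := hε
  obtain ⟨G, b, hGb⟩ := exists_comb hp f (ε := ε / (C + 1)) (by positivity)
  set y := ∑ i ∈ G, b i • hv ℝ p i with hy
  have hyM : ENNReal.ofReal ‖y‖ ≤ MM p (fun j => ‖coef p j y‖₊) := by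
    have h1 := le_MM p (fun j => ‖coef p j y‖₊) G (fun j => ((SignType.sign (b j) : SignType) : ℝ))
      (fun j => by
        rcases lt_trichotomy (b j) 0 with h | h | h
        · simp [sign_neg h]
        · simp [h]
        · simp [sign_pos h])
    have e1 : ∑ j ∈ G, (((SignType.sign (b j) : SignType) : ℝ) *
        ((‖coef p j y‖₊ : ℝ≥0) : ℝ)) • hv ℝ p j = y := by
      rw [hy]
      refine sum_congr rfl fun j hj => ?_
      congr 1
      rw [coef_comb hp, if_pos hj, coe_nnnorm, Real.norm_eq_abs]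
      exact sign_mul_abs _
    rwa [e1] at h1
  have hyM2 : MM p (fun j => ‖coef p j y‖₊) ≤
      MM p (fun j => ‖coef p j f‖₊) + MM p (fun j => ‖coef p j (f - y)‖₊) := by
    refine (hM.mono _ _ fun j => ?_).trans (hM.add _ _)
    simp only [Pi.add_apply]
    have : coef p j y = coef p j f - coef p j (f - y) := by rw [coef_sub hp]; ring
    rw [this]
    exact nnnorm_sub_le _ _
  have e3 : ‖f‖ ≤ ‖y‖ + ‖f - y‖ := by
    have := norm_add_le y (f - y)
    rwa [add_sub_cancel] at this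
  have e4 : (C + 1) * ‖f - y‖ ≤ ε := by
    calc (C + 1) * ‖f - y‖ ≤ (C + 1) * (ε / (C + 1)) := by gcongr
      _ = ε := by field_simp
  calc ENNReal.ofReal ‖f‖ ≤ ENNReal.ofReal ‖y‖ + ENNReal.ofReal ‖f - y‖ := by
        rw [← ENNReal.ofReal_add (norm_nonneg _) (norm_nonneg _)]
        exact ENNReal.ofReal_le_ofReal e3
    _ ≤ MM p (fun j => ‖coef p j f‖₊) + (C.toNNReal : ℝ≥0) * ENNReal.ofReal ‖f - y‖ +
        ENNReal.ofReal ‖f - y‖ := by
        gcongr
        exact hyM.trans (hyM2.trans (by gcongr; exact upper _))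
    _ = MM p (fun j => ‖coef p j f‖₊) + ENNReal.ofReal ((C + 1) * ‖f - y‖) := by
        rw [add_mul, one_mul, ENNReal.ofReal_add (by positivity) (by positivity),
          ENNReal.ofReal_mul hC.le, add_assoc]
        rfl
    _ ≤ MM p (fun j => ‖coef p j f‖₊) + ε := by
        gcongr
        calc ENNReal.ofReal ((C + 1) * ‖f - y‖) ≤ ENNReal.ofReal ε :=
              ENNReal.ofReal_le_ofReal e4
          _ = ε := ENNReal.ofReal_coe_nnreal

end Pool.Agent.R221.HG
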